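import Pool.Agent.H116.EN.Tilt

/-!
Under the tilted weights most points get `κ` lines, unless many conditional probabilities are small.
-/

set_option autoImplicit false
open Finset Real

namespace Pool.Agent.H116.EN

open Pool.Agent.W281.Net

variable (n : ℕ) (μ : Finset ℕ → ℝ) (q : ℝ) (κ : ℕ) (l : Finset ℕ)

open Classical in
/-- indicator of a bad step: the conditional probability is smaller than `q / 2` -/
noncomputable def bad (i : ℕ) (N : Finset ℕ) : ℝ := if pr n μ i N < q / 2 then 1 else 0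

theorem meas_bad (i : ℕ) : Meas i (bad n μ q i) := by
  intro N N' h
  unfold bad
  rw [meas_pr n μ i N N' h]

open Classical in
/-- number of good steps before `i` -/
noncomputable def gd (i : ℕ) (N : Finset ℕ) : ℕ :=
  ((range i).filter (fun j => j ∈ l ∧ q / 2 ≤ pr n μ j N)).card

open Classical in
theorem gd_succ (i : ℕ) (N : Finset ℕ) : gd n μ q l (i + 1) N =
    gd n μ q l i N + if i ∈ l ∧ q / 2 ≤ pr n μ i N then 1 else 0 := by
  unfold gd
  rw [range_add_one, filter_insert]
  split_ifs with h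
  · rw [card_insert_of_notMem]
    simp
  · simp

theorem gd_congr (i : ℕ) {N N' : Finset ℕ} (h : N ∩ range i = N' ∩ range i) :
    gd n μ q l i N = gd n μ q l i N' := by
  classical
  unfold gd
  congr 1
  apply filter_congr
  intro j hj
  have hji : j ≤ i := (mem_range.1 hj).le
  rw [(meas_pr n μ j).mono hji N N' h]

open Classical in
/-- the potential -/
noncomputable def Fp (i : ℕ) (N : Finset ℕ) : ℝ :=
  if cnt l i N < κ then (1 / 2) ^ (cnt l i N) * (4 / 3) ^ (gd n μ q l i N) else 0

theorem meas_Fp (i : ℕ) : Meas i (Fp n μ q κ l i) := by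
  intro N N' h
  unfold Fp
  rw [cnt_congr l i h, gd_congr n μ q l i h]

open Classical in
noncomputable def gr (i : ℕ) (N : Finset ℕ) : ℝ := if i ∈ l ∧ q / 2 ≤ pr n μ i N then 4 / 3 else 1

theorem meas_gr (i : ℕ) : Meas i (gr n μ q l i) := by
  intro N N' h
  unfold gr
  rw [meas_pr n μ i N N' h]

variable {n μ q κ l}

theorem Fp_nonneg (i : ℕ) (N : Finset ℕ) : 0 ≤ Fp n μ q κ l i N := by
  unfold Fp; split_ifs
  · positivity
  · exact le_refl _

theorem bad_nonneg (i : ℕ) (N : Finset ℕ) : 0 ≤ bad n μ q i N := by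
  unfold bad; split_ifs <;> norm_num

theorem bad_le_one (i : ℕ) (N : Finset ℕ) : bad n μ q i N ≤ 1 := by
  unfold bad; split_ifs <;> norm_num

theorem gr_pos (i : ℕ) (N : Finset ℕ) : 0 < gr n μ q l i N := by
  unfold gr; split_ifs <;> norm_num

theorem Fp_succ_le (i : ℕ) (N : Finset ℕ) : Fp n μ q κ l (i + 1) N ≤
    Fp n μ q κ l i N * gr n μ q l i N * (1 - (if i ∈ l then xi i N else 0) / 2) := by
  classical
  have hx : 0 ≤ 1 - (if i ∈ l then xi i N else 0) / 2 := by
    unfold xi; split_ifs <;> norm_num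
  have hrhs : 0 ≤ Fp n μ q κ l i N * gr n μ q l i N * (1 - (if i ∈ l then xi i N else 0) / 2) :=
    mul_nonneg (mul_nonneg (Fp_nonneg i N) (gr_pos i N).le) hx
  by_cases hc : cnt l (i + 1) N < κ
  · have hc0 : cnt l i N < κ := lt_of_le_of_lt (cnt_le_succ l i N) hc
    have e1 : Fp n μ q κ l (i + 1) N =
        (1 / 2) ^ (cnt l (i + 1) N) * (4 / 3) ^ (gd n μ q l (i + 1) N) := by
      unfold Fp; rw [if_pos hc]
    have e2 : Fp n μ q κ l i N = (1 / 2) ^ (cnt l i N) * (4 / 3) ^ (gd n μ q l i N) := by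
      unfold Fp; rw [if_pos hc0]
    have e3 : ((4 : ℝ) / 3) ^ (gd n μ q l (i + 1) N) =
        (4 / 3) ^ (gd n μ q l i N) * gr n μ q l i N := by
      rw [gd_succ]
      unfold gr
      split_ifs
      · rw [pow_succ]
      · simp
    rw [e1, e2, e3]
    by_cases hi : i ∈ N ∧ i ∈ l
    · rw [cnt_succ_hit hi.1 hi.2, if_pos hi.2]
      have : xi i N = 1 := by unfold xi; rw [if_pos hi.1]
      rw [this, pow_succ]
      apply le_of_eq; ring
    · rw [cnt_succ_not hi]
      have : (if i ∈ l then xi i N else 0) = 0 := by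
        unfold xi
        split_ifs with h1 h2
        · exact absurd ⟨h2, h1⟩ hi
        · rfl
        · rfl
      rw [this]
      apply le_of_eq; ring
  · have : Fp n μ q κ l (i + 1) N = 0 := by unfold Fp; rw [if_neg hc]
    rw [this]; exact hrhs

theorem step_le (hq : 0 < q) (hq1 : q ≤ 1) (h0 : ∀ N, 0 ≤ μ N) (i : ℕ) :
    E n μ (fun N => Zt n μ q κ l (i + 1) N * Fp n μ q κ l (i + 1) N) ≤
      E n μ (fun N => Zt n μ q κ l i N * Fp n μ q κ l i N) := by
  classical
  have mG : Meas i (fun N => Fp n μ q κ l i N * gr n μ q l i N) :=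
    (meas_Fp n μ q κ l i).mul (meas_gr n μ q l i)
  have a1 : E n μ (fun N => Zt n μ q κ l (i + 1) N * Fp n μ q κ l (i + 1) N) ≤
      E n μ (fun N => Zt n μ q κ l (i + 1) N * (Fp n μ q κ l i N * gr n μ q l i N *
        (1 - (if i ∈ l then xi i N else 0) / 2))) := by
    apply E_mono' h0
    intro N
    exact mul_le_mul_of_nonneg_left (Fp_succ_le i N) (Zt_nonneg hq _ N)
  refine a1.trans ?_
  by_cases hl : i ∈ l
  · simp only [if_pos hl]
    have mK : Meas i (fun N => Zt n μ q κ l i N *
        (1 + Ac n μ q κ l i N * th n μ i N * (1 - pr n μ i N)) *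
        (Fp n μ q κ l i N * gr n μ q l i N)) :=
      ((meas_Zt n μ q κ l i).mul ((Meas.const 1).add (((meas_Ac n μ q κ l i).mul
        (meas_th n μ i)).mul ((Meas.const 1).sub (meas_pr n μ i))))).mul mG
    have e1 : ∀ N, Zt n μ q κ l (i + 1) N * (Fp n μ q κ l i N * gr n μ q l i N *
        (1 - xi i N / 2)) =
        Zt n μ q κ l (i + 1) N * (Fp n μ q κ l i N * gr n μ q l i N) -
        (1 / 2) * (xi i N * (Zt n μ q κ l i N *
          (1 + Ac n μ q κ l i N * th n μ i N * (1 - pr n μ i N)) *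
          (Fp n μ q κ l i N * gr n μ q l i N))) := by
      intro N
      simp only [Zt]
      by_cases hi : i ∈ N
      · have : xi i N = 1 := by unfold xi; rw [if_pos hi]
        rw [this]; ring
      · have : xi i N = 0 := by unfold xi; rw [if_neg hi]
        rw [this]; ring
    simp only [e1]
    rw [E_sub, E_const_mul, star' h0 i mK, E_Zt_succ h0 i mG, ← E_const_mul, ← E_sub]
    apply E_mono' h0
    intro N
    have hZ := Zt_nonneg (n := n) (μ := μ) (κ := κ) (l := l) hq i N
    have hF := Fp_nonneg (n := n) (μ := μ) (q := q) (κ := κ) (l := l) i N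
    have hp0 := pr_nonneg (n := n) h0 i N
    have hp1 := pr_le_one (n := n) h0 i N
    have key : Fp n μ q κ l i N * gr n μ q l i N * (1 - (1 / 2) * (pr n μ i N *
        (1 + Ac n μ q κ l i N * th n μ i N * (1 - pr n μ i N)))) ≤ Fp n μ q κ l i N := by
      by_cases hc : cnt l i N < κ
      · by_cases hb : pr n μ i N < q / 2
        · have hA : Ac n μ q κ l i N = 0 := by
            unfold Ac; rw [if_neg]; rintro ⟨_, h, _⟩; linarith
          have hg : gr n μ q l i N = 1 := by
            unfold gr; rw [if_neg]; rintro ⟨_, h⟩; linarith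
          rw [hA, hg]
          nlinarith
        · have hb := not_lt.1 hb
          have hg : gr n μ q l i N = 4 / 3 := by unfold gr; rw [if_pos ⟨hl, hb⟩]
          by_cases h12 : pr n μ i N ≤ 1 / 2
          · have hA : Ac n μ q κ l i N = 1 := by
              unfold Ac; rw [if_pos]; exact ⟨hl, hb, h12, hc⟩
            have hp : 0 < pr n μ i N := by linarith
            have hp' : 0 < 1 - pr n μ i N := by linarith
            have e : pr n μ i N * (1 + Ac n μ q κ l i N * th n μ i N * (1 - pr n μ i N)) = 1 / 2 := by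
              rw [hA]; unfold th; field_simp; ring
            rw [e, hg]
            apply le_of_eq; ring
          · have hA : Ac n μ q κ l i N = 0 := by
              unfold Ac; rw [if_neg]; rintro ⟨_, _, h, _⟩; exact h12 h
            have h12 := not_le.1 h12
            rw [hA, hg]
            nlinarith
      · have : Fp n μ q κ l i N = 0 := by unfold Fp; rw [if_neg hc]
        rw [this]; simp
    have := mul_le_mul_of_nonneg_left key hZ
    calc _ = Zt n μ q κ l i N * (Fp n μ q κ l i N * gr n μ q l i N * (1 - (1 / 2) * (pr n μ i N *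
        (1 + Ac n μ q κ l i N * th n μ i N * (1 - pr n μ i N))))) := by ring
      _ ≤ _ := this
  · simp only [if_neg hl]
    have hg : ∀ N, gr n μ q l i N = 1 := by
      intro N; unfold gr; rw [if_neg]; rintro ⟨h, _⟩; exact hl h
    simp only [hg, zero_div, sub_zero, mul_one]
    rw [E_Zt_succ h0 i (meas_Fp n μ q κ l i)]

theorem potential (hq : 0 < q) (hq1 : q ≤ 1) (hκ : 1 ≤ κ) (h0 : ∀ N, 0 ≤ μ N)
    (h1 : E n μ (fun _ => 1) = 1) (k : ℕ) :
    E n μ (fun N => Zt n μ q κ l k N * Fp n μ q κ l k N) ≤ 1 := by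
  induction k with
  | zero =>
    have e : ∀ N, Zt n μ q κ l 0 N * Fp n μ q κ l 0 N = 1 := by
      intro N
      unfold Fp gd
      rw [cnt_zero, if_pos (by omega)]
      simp [Zt]
    simp only [e]
    exact h1.le
  | succ k ih => exact (step_le hq hq1 h0 k).trans ih

theorem num_bound {κ : ℕ} (hκ : 1 ≤ κ) : (2 : ℝ) ^ κ * (3 / 4) ^ (8 * κ) ≤ 1 / 4 := by
  rw [pow_mul, ← mul_pow]
  have h1 : (2 : ℝ) * (3 / 4) ^ 8 ≤ 1 / 4 := by norm_num
  calc ((2 : ℝ) * (3 / 4) ^ 8) ^ κ ≤ (1 / 4) ^ κ := by gcongr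
    _ ≤ (1 / 4) ^ 1 := pow_le_pow_of_le_one (by norm_num) (by norm_num) hκ
    _ = 1 / 4 := pow_one _

open Classical in
/-- indicator that fewer than `κ` lines have been chosen -/
noncomputable def low (κ : ℕ) (l : Finset ℕ) (n : ℕ) (N : Finset ℕ) : ℝ :=
  if cnt l n N < κ then 1 else 0

theorem chern (hq : 0 < q) (hq1 : q ≤ 1) (hκ : 1 ≤ κ) (h0 : ∀ N, 0 ≤ μ N)
    (h1 : E n μ (fun _ => 1) = 1) (hl : l ⊆ range n) (hc : l.card = 16 * κ) :
    E n μ (fun N => Zt n μ q κ l n N * low κ l n N) ≤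
      1 / 4 + (1 / (8 * κ)) * ∑ j ∈ l, E n μ (fun N => Zt n μ q κ l j N * bad n μ q j N) := by
  classical
  have hκ0 : (0 : ℝ) < κ := by exact_mod_cast hκ
  have a1 : E n μ (fun N => Zt n μ q κ l n N * low κ l n N) ≤
      E n μ (fun N => ((2 : ℝ) ^ κ * (3 / 4) ^ (8 * κ)) * (Zt n μ q κ l n N * Fp n μ q κ l n N) +
        (1 / (8 * κ)) * ∑ j ∈ l, Zt n μ q κ l n N * bad n μ q j N) := by
    apply E_mono' h0
    intro N
    have hZ := Zt_nonneg (n := n) (μ := μ) (κ := κ) (l := l) hq n N
    have hF := Fp_nonneg (n := n) (μ := μ) (q := q) (κ := κ) (l := l) n N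
    have hB : 0 ≤ ∑ j ∈ l, bad n μ q j N := sum_nonneg fun j _ => bad_nonneg j N
    rw [← mul_sum]
    have key : low κ l n N ≤ ((2 : ℝ) ^ κ * (3 / 4) ^ (8 * κ)) * Fp n μ q κ l n N +
        (1 / (8 * κ)) * ∑ j ∈ l, bad n μ q j N := by
      unfold low
      split_ifs with hcn
      · by_cases hg : 8 * κ ≤ gd n μ q l n N
        · have e : Fp n μ q κ l n N =
              (1 / 2) ^ (cnt l n N) * (4 / 3) ^ (gd n μ q l n N) := by
            unfold Fp; rw [if_pos hcn]
          have b1 : ((1 : ℝ) / 2) ^ κ ≤ (1 / 2) ^ (cnt l n N) :=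
            pow_le_pow_of_le_one (by norm_num) (by norm_num) hcn.le
          have b2 : ((4 : ℝ) / 3) ^ (8 * κ) ≤ (4 / 3) ^ (gd n μ q l n N) :=
            pow_le_pow_right₀ (by norm_num) hg
          have b3 : ((2 : ℝ) ^ κ * (3 / 4) ^ (8 * κ)) * ((1 / 2) ^ κ * (4 / 3) ^ (8 * κ)) = 1 := by
            have c1 : ((2 : ℝ) ^ κ * (3 / 4) ^ (8 * κ)) * ((1 / 2) ^ κ * (4 / 3) ^ (8 * κ)) =
              ((2 : ℝ) * (1 / 2)) ^ κ * ((3 / 4 : ℝ) * (4 / 3)) ^ (8 * κ) := by
              rw [mul_pow, mul_pow]; ring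
            rw [c1]; norm_num
          have b4 : ((1 : ℝ) / 2) ^ κ * (4 / 3) ^ (8 * κ) ≤ Fp n μ q κ l n N := by
            rw [e]; exact mul_le_mul b1 b2 (by positivity) (by positivity)
          have b5 : (1 : ℝ) ≤ ((2 : ℝ) ^ κ * (3 / 4) ^ (8 * κ)) * Fp n μ q κ l n N := by
            rw [← b3]; exact mul_le_mul_of_nonneg_left b4 (by positivity)
          have b6 : 0 ≤ (1 / (8 * (κ : ℝ))) * ∑ j ∈ l, bad n μ q j N := by positivity
          linarith
        · have b1 : (∑ j ∈ l, bad n μ q j N) + gd n μ q l n N = l.card := by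
            have c1 : (∑ j ∈ l, bad n μ q j N) = ((l.filter (fun j => pr n μ j N < q / 2)).card : ℝ) := by
              unfold bad
              rw [← sum_filter]; simp
            have c2 : gd n μ q l n N = (l.filter (fun j => ¬ pr n μ j N < q / 2)).card := by
              unfold gd
              congr 1
              ext j
              simp only [mem_filter, mem_range, not_lt]
              constructor
              · rintro ⟨_, h2, h3⟩; exact ⟨h2, h3⟩
              · rintro ⟨h2, h3⟩; exact ⟨mem_range.1 (hl h2), h2, h3⟩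
            rw [c1, c2]
            exact_mod_cast card_filter_add_card_filter_not (s := l) (fun j => pr n μ j N < q / 2)
          have b2 : (gd n μ q l n N : ℝ) ≤ 8 * κ := by
            have : gd n μ q l n N ≤ 8 * κ := by omega
            exact_mod_cast this
          have b3 : (8 : ℝ) * κ ≤ ∑ j ∈ l, bad n μ q j N := by
            rw [hc] at b1; push_cast at b1; linarith
          have b4 : 1 ≤ (1 / (8 * (κ : ℝ))) * ∑ j ∈ l, bad n μ q j N := by
            rw [one_div, ← div_eq_inv_mul, le_div_iff₀ (by positivity)]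
            linarith
          have b5 : 0 ≤ ((2 : ℝ) ^ κ * (3 / 4) ^ (8 * κ)) * Fp n μ q κ l n N := by positivity
          linarith
      · positivity
    have := mul_le_mul_of_nonneg_left key hZ
    calc _ ≤ _ := this
      _ = _ := by ring
  rw [E_add, E_const_mul, E_const_mul, E_sum] at a1
  have a2 : ∀ j ∈ l, E n μ (fun N => Zt n μ q κ l n N * bad n μ q j N) =
      E n μ (fun N => Zt n μ q κ l j N * bad n μ q j N) := fun j hj =>
    E_Zt_le h0 (mem_range.1 (hl hj)).le (meas_bad n μ q j)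
  rw [sum_congr rfl a2] at a1
  have a3 : ((2 : ℝ) ^ κ * (3 / 4) ^ (8 * κ)) *
      E n μ (fun N => Zt n μ q κ l n N * Fp n μ q κ l n N) ≤ 1 / 4 * 1 :=
    mul_le_mul (num_bound hκ) (potential hq hq1 hκ h0 h1 n)
      (E_nonneg h0 fun N => mul_nonneg (Zt_nonneg hq n N) (Fp_nonneg n N)) (by norm_num)
  linarith

end Pool.Agent.H116.EN
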