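import Pool.Agent.H116.EN.Ent

/-!
The main combinatorial theorem: for a suitable incidence structure, some set `X` of at most `2 m` of
the lines has the property that the points on at least `κ` lines of `X` cannot be covered by few lines.
-/

set_option autoImplicit false
open Finset Real

namespace Pool.Agent.H116.EN

open Pool.Agent.W281.Net

section lower

variable {n : ℕ} {μ : Finset ℕ → ℝ} {q : ℝ} {κ : ℕ}

/-- Summation of the Chernoff estimate over the points which are not on the lines of `Y`. -/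
theorem lower {ι : Type*} [DecidableEq ι] (hq : 0 < q) (hq1 : q ≤ 1) (hκ : 1 ≤ κ)
    (h0 : ∀ N, 0 ≤ μ N) (h1 : E n μ (fun _ => 1) = 1) (L : Finset ι) (f : ι → Finset ℕ)
    (hf : ∀ a ∈ L, f a ⊆ range n) (hc : ∀ a ∈ L, (f a).card = 16 * κ) {m T R : ℝ}
    (hdeg : ∀ j, ((L.filter (fun a => j ∈ f a)).card : ℝ) ≤ m)
    (hpair : ∀ i j, i < j → ∀ a ∈ L, ∀ a' ∈ L, i ∈ f a → i ∈ f a' → j ∈ f a → j ∈ f a' → a = a')
    (Y : Finset ℕ) (hR : (1 / q) ^ κ = R) (hT : 0 < T) (hm : 0 < m) (hRT : R * T ^ 2 ≤ m)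
    (hLY : ∀ a ∈ L, ∀ j ∈ f a, j ∉ Y) :
    3 / 4 * (L.card : ℝ) - 1 / (8 * κ) * (m * ∑ j ∈ range n \ Y, E n μ (bad n μ q j) +
      n * (m / T)) ≤
    E n μ (fun N => ∑ a ∈ L, Zt n μ q κ (f a) n N * (1 - low κ (f a) n N)) := by
  classical
  have hκ0 : (0 : ℝ) < κ := by exact_mod_cast hκ
  rw [E_sum]
  have s1 : ∀ a ∈ L, 3 / 4 - 1 / (8 * κ) * ∑ j ∈ f a,
      E n μ (fun N => Zt n μ q κ (f a) j N * bad n μ q j N) ≤
      E n μ (fun N => Zt n μ q κ (f a) n N * (1 - low κ (f a) n N)) := by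
    intro a ha
    have k1 := chern hq hq1 hκ h0 h1 (hf a ha) (hc a ha)
    have k2 : ∀ N, Zt n μ q κ (f a) n N * (1 - low κ (f a) n N) =
        Zt n μ q κ (f a) n N - Zt n μ q κ (f a) n N * low κ (f a) n N := by intro N; ring
    simp only [k2]
    rw [E_sub]
    have k3 : E n μ (fun N => Zt n μ q κ (f a) n N) = 1 := E_Zt_one h0 h1 n
    rw [k3]
    linarith
  refine le_trans ?_ (sum_le_sum s1)
  rw [sum_sub_distrib, sum_const, nsmul_eq_mul, ← mul_sum]
  set S : ℕ → Finset ι := fun j => L.filter (fun a => j ∈ f a) with hS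
  have s2 : ∑ a ∈ L, ∑ j ∈ f a, E n μ (fun N => Zt n μ q κ (f a) j N * bad n μ q j N) =
      ∑ j ∈ range n \ Y, ∑ a ∈ S j, E n μ (fun N => Zt n μ q κ (f a) j N * bad n μ q j N) := by
    apply sum_comm'
    intro a j
    simp only [hS, mem_filter, mem_sdiff]
    constructor
    · rintro ⟨ha, hj⟩; exact ⟨⟨ha, hj⟩, hf a ha hj, hLY a ha j hj⟩
    · rintro ⟨⟨ha, hj⟩, _⟩; exact ⟨ha, hj⟩
  have s3 : ∀ j ∈ range n \ Y, ∑ a ∈ S j, E n μ (fun N => Zt n μ q κ (f a) j N * bad n μ q j N) ≤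
      m * E n μ (bad n μ q j) + m / T := by
    intro j _
    have hdj : ((S j).card : ℝ) ≤ m := hdeg j
    have b1 : ∑ a ∈ S j, E n μ (fun N => Zt n μ q κ (f a) j N * bad n μ q j N) ≤
        E n μ (fun N => m * bad n μ q j N + |∑ a ∈ S j, Zt n μ q κ (f a) j N - (S j).card|) := by
      rw [← E_sum]
      apply E_mono' h0
      intro N
      rw [← sum_mul]
      set y := ∑ a ∈ S j, Zt n μ q κ (f a) j N
      have c0 := bad_nonneg (n := n) (μ := μ) (q := q) j N
      have c1 := bad_le_one (n := n) (μ := μ) (q := q) j N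
      have c2 : y ≤ m + |y - (S j).card| := by
        have := le_abs_self (y - (S j).card)
        linarith
      have c3 := abs_nonneg (y - (S j).card)
      calc y * bad n μ q j N ≤ (m + |y - (S j).card|) * bad n μ q j N :=
            mul_le_mul_of_nonneg_right c2 c0
        _ = m * bad n μ q j N + |y - (S j).card| * bad n μ q j N := by ring
        _ ≤ m * bad n μ q j N + |y - (S j).card| * 1 := by
            have := mul_le_mul_of_nonneg_left c1 c3
            linarith
        _ = _ := by ring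
    rw [E_add, E_const_mul] at b1
    have b2 := absmom (n := n) (μ := μ) (κ := κ) hq hq1 (S j) f j h0 h1 (by
      intro a ha a' ha' hne i hij hi
      simp only [hS, mem_filter] at ha ha'
      exact hne (hpair i j hij a ha.1 a' ha'.1 hi.1 hi.2 ha.2 ha'.2)) hR hT hdj hRT hm
    linarith
  have s4 := sum_le_sum s3
  rw [← s2, sum_add_distrib, ← mul_sum, sum_const, nsmul_eq_mul] at s4
  have s5 : ((range n \ Y).card : ℝ) * (m / T) ≤ n * (m / T) := by
    apply mul_le_mul_of_nonneg_right _ (by positivity)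
    have : (range n \ Y).card ≤ (range n).card := card_le_card sdiff_subset
    rw [card_range] at this
    exact_mod_cast this
  have s6 := mul_le_mul_of_nonneg_left (s4.trans (add_le_add_right s5 _))
    (by positivity : 0 ≤ 1 / (8 * (κ : ℝ)))
  linarith

end lower

theorem exp_neg_seven : exp (-7 : ℝ) ≤ 1 / 1000 := by
  rw [exp_neg, one_div]
  apply inv_anti₀ (by norm_num)
  have h1 : (2.7182818283 : ℝ) ≤ exp 1 := exp_one_gt_d9.le
  calc (1000 : ℝ) ≤ (2.7182818283 : ℝ) ^ 7 := by norm_num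
    _ ≤ exp 1 ^ 7 := by gcongr
    _ = exp 7 := by rw [← exp_nat_mul]; norm_num

/-- **Main combinatorial theorem.** -/
theorem core {ι : Type*} [DecidableEq ι] (κ g m T D T0 n : ℕ) (hκ : 1 ≤ κ) (hg : g = 16 * κ)
    (hn : n = 2 * g ^ 2 * m)
    (L : Finset ι) (f : ι → Finset ℕ)
    (hf : ∀ a ∈ L, f a ⊆ range n) (hc : ∀ a ∈ L, (f a).card = g)
    (hL : L.card = g * m ^ 2)
    (hdeg : ∀ j, (L.filter (fun a => j ∈ f a)).card ≤ m)
    (hpair : ∀ i j, i < j → ∀ a ∈ L, ∀ a' ∈ L, i ∈ f a → i ∈ f a' → j ∈ f a → j ∈ f a' → a = a')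
    (Λ V : Finset (Finset ι)) (hΛ : ∀ S ∈ Λ, S ⊆ L)
    (hVΛ : V ⊆ Λ)
    (hcol : ∀ S ∈ Λ, ∀ a ∈ S, ∀ a' ∈ S, a ≠ a' → ∀ i, i ∈ f a → i ∈ f a' → ∀ c ∈ S, i ∈ f c)
    (hSg : ∀ S ∈ Λ, S.card ≤ g * m) (hVm : V.card ≤ m)
    (hrich : ∑ S ∈ (Λ \ V).filter (fun S => D ≤ S.card), S.card ≤ T0 * L.card)
    (hT0 : 10 * T0 ≤ T) (hT : 100 ≤ T) (hRT : (2 * g ^ 2) ^ κ * T ^ 2 ≤ D)
    (hDR : D * (2 * g ^ 2) ^ κ ≤ m) (hm : 1000 ≤ m) :
    ∃ X ⊆ range n, X.card ≤ 2 * m ∧ ∀ cov ⊆ Λ,
      (∀ a ∈ L, κ ≤ (X ∩ f a).card → ∃ S ∈ cov, a ∈ S) → m < 1000 * cov.card := by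
  classical
  by_contra hcon
  push Not at hcon
  have hcon' : ∀ X : Finset ℕ, ∃ cov : Finset (Finset ι), X ⊆ range n → X.card ≤ 2 * m →
      (cov ⊆ Λ ∧ (∀ a ∈ L, κ ≤ (X ∩ f a).card → ∃ S ∈ cov, a ∈ S) ∧ 1000 * cov.card ≤ m) := by
    intro X
    by_cases h : X ⊆ range n ∧ X.card ≤ 2 * m
    · obtain ⟨cov, h1, h2, h3⟩ := hcon X h.1 h.2
      exact ⟨cov, fun _ _ => ⟨h1, h2, h3⟩⟩
    · exact ⟨∅, fun h1 h2 => absurd ⟨h1, h2⟩ h⟩
  choose cv hcv using hcon'
  -- basic numbers
  have hg16 : 16 ≤ g := by omega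
  have hG : (16 : ℝ) ≤ g := by exact_mod_cast hg16
  have hG0 : (0 : ℝ) < g := by linarith
  have hm1 : (1000 : ℝ) ≤ m := by exact_mod_cast hm
  have hm0 : (0 : ℝ) < m := by linarith
  set q : ℝ := 1 / (2 * (g : ℝ) ^ 2) with hqdef
  have hq : 0 < q := by positivity
  have hq1 : q < 1 := by
    rw [hqdef, div_lt_one (by positivity)]
    nlinarith
  have hqinv : 1 / q = 2 * (g : ℝ) ^ 2 := by rw [hqdef, one_div_one_div]
  set R : ℝ := (2 * (g : ℝ) ^ 2) ^ κ with hRdef
  have hR : (1 / q) ^ κ = R := by rw [hqinv]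
  have hR1 : 1 ≤ R := by
    rw [hRdef]
    apply one_le_pow₀
    nlinarith
  have hnR : (n : ℝ) = 2 * (g : ℝ) ^ 2 * m := by rw [hn]; push_cast; ring
  have hnq : (n : ℝ) * q = m := by rw [hnR, hqdef]; field_simp
  have hTR : (100 : ℝ) ≤ T := by exact_mod_cast hT
  have hTpos : (0 : ℝ) < T := by linarith
  have hRT' : R * (T : ℝ) ^ 2 ≤ D := by
    rw [hRdef]; exact_mod_cast hRT
  have hDR' : (D : ℝ) * R ≤ m := by
    rw [hRdef]; exact_mod_cast hDR
  have hD0 : (0 : ℝ) ≤ D := Nat.cast_nonneg _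
  have hDm : (D : ℝ) ≤ m := by nlinarith
  have hRTm : R * (T : ℝ) ^ 2 ≤ m := hRT'.trans hDm
  have hgm : (m : ℝ) ≤ g * m := by nlinarith
  -- the exceptional index of a line
  set e : Finset ι → Finset ℕ := fun S => if 2 ≤ S.card then
    (range n).filter (fun j => ∀ a ∈ S, j ∈ f a) else ∅ with he
  have hecard : ∀ S ∈ Λ, (e S).card ≤ 1 := by
    intro S hS
    simp only [he]
    split_ifs with h2
    · rw [card_le_one]
      intro i hi j hj
      rw [mem_filter] at hi hj
      obtain ⟨a, ha, a', ha', hne⟩ := one_lt_card.1 (by omega : 1 < S.card)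
      by_contra hij
      rcases lt_or_gt_of_ne hij with h | h
      · exact hne (hpair i j h a (hΛ S hS ha) a' (hΛ S hS ha') (hi.2 a ha) (hi.2 a' ha')
          (hj.2 a ha) (hj.2 a' ha'))
      · exact hne (hpair j i h a (hΛ S hS ha) a' (hΛ S hS ha') (hj.2 a ha) (hj.2 a' ha')
          (hi.2 a ha) (hi.2 a' ha'))
    · simp
  set Yf : Finset ℕ → Finset ℕ := fun X => X ∩ (cv X).biUnion e with hYf
  set s : ℕ := m / 1000 with hs
  have hcs : ∀ X ⊆ range n, X.card ≤ 2 * m → (cv X).card ≤ s := by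
    intro X h1 h2
    obtain ⟨_, _, h3⟩ := hcv X h1 h2
    omega
  have hYprop : ∀ X ⊆ range n, X.card ≤ 2 * m → Yf X ⊆ X ∧ (Yf X).card ≤ s := by
    intro X h1 h2
    refine ⟨inter_subset_left, ?_⟩
    obtain ⟨h3, _, _⟩ := hcv X h1 h2
    calc (Yf X).card ≤ ((cv X).biUnion e).card := card_le_card inter_subset_right
      _ ≤ ∑ S ∈ cv X, (e S).card := card_biUnion_le
      _ ≤ ∑ S ∈ cv X, 1 := sum_le_sum fun S hS => hecard S (h3 hS)
      _ = (cv X).card := by simp
      _ ≤ s := hcs X h1 h2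
  obtain ⟨Y, hYs, hΦ0, hΦ⟩ := choose_trace (lam := 7) hq hq1 (by norm_num) (by omega : 0 < m) hnq
    Yf hYprop
  set K := (range n).powerset.filter (fun X => X.card ≤ 2 * m ∧ Yf X = Y) with hK
  set Φ := ∑ X ∈ K, w n q X with hΦdef
  have hKmem : ∀ X ∈ K, X ⊆ range n ∧ X.card ≤ 2 * m ∧ Yf X = Y := by
    intro X hX
    rw [hK, mem_filter, mem_powerset] at hX
    exact ⟨hX.1, hX.2.1, hX.2.2⟩
  set μ : Finset ℕ → ℝ := fun N => if N ∈ K then w n q N / Φ else 0 with hμ
  have hw : ∀ N, 0 ≤ w n q N := fun N => w_nonneg hq.le hq1.le N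
  have h0 : ∀ N, 0 ≤ μ N := by
    intro N; simp only [hμ]; split_ifs
    · exact div_nonneg (hw N) hΦ0.le
    · exact le_refl _
  have hmem : ∀ N, μ N ≠ 0 → N ∈ K := by
    intro N h; by_contra hc; exact h (by simp only [hμ]; rw [if_neg hc])
  have h1 : E n μ (fun _ => 1) = 1 := by
    unfold E
    simp only [mul_one, hμ]
    rw [← sum_filter, filter_mem_eq_inter, inter_eq_right.2 (filter_subset _ _), ← sum_div]
    exact div_self hΦ0.ne'
  have hbadsum := ent hq hq1 K Y (fun X hX => ⟨(hKmem X hX).1, by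
    have := (hKmem X hX).2.2
    rw [← this]; exact inter_subset_left⟩) hΦdef hΦ0 (μ := μ) (fun N => rfl)
  set B : ℝ := ∑ i ∈ range n \ Y, E n μ (bad n μ q i) with hB
  have hsR : (s : ℝ) ≤ m / 1000 := by
    rw [le_div_iff₀ (by norm_num)]
    have : s * 1000 ≤ m := Nat.div_mul_le_self m 1000
    exact_mod_cast this
  have hBbound : 15 / 100 * q * B ≤ 87 / 10000 * m := by
    have a1 := exp_neg_seven
    have a2 : log 2 < 0.6931471808 := log_two_lt_d9
    have a3 : (m : ℝ) * exp (-7) ≤ m * (1 / 1000) := mul_le_mul_of_nonneg_left a1 hm0.le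
    have := hbadsum.trans hΦ
    linarith
  -- the points which are not on the lines of `Y`
  set L' := L.filter (fun a => ∀ j ∈ f a, j ∉ Y) with hL'
  have hL'L : L' ⊆ L := filter_subset _ _
  have hL'card : (g : ℝ) * m ^ 2 - s * m ≤ L'.card := by
    have a1 : L \ L' ⊆ Y.biUnion (fun j => L.filter (fun a => j ∈ f a)) := by
      intro a ha
      rw [mem_sdiff, hL', mem_filter] at ha
      obtain ⟨ha1, ha2⟩ := ha
      push Not at ha2
      obtain ⟨j, hj1, hj2⟩ := ha2 ha1
      rw [mem_biUnion]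
      exact ⟨j, hj2, mem_filter.2 ⟨ha1, hj1⟩⟩
    have a2 : (L \ L').card ≤ s * m := by
      calc (L \ L').card ≤ (Y.biUnion (fun j => L.filter (fun a => j ∈ f a))).card :=
            card_le_card a1
        _ ≤ ∑ j ∈ Y, (L.filter (fun a => j ∈ f a)).card := card_biUnion_le
        _ ≤ ∑ _j ∈ Y, m := sum_le_sum fun j _ => hdeg j
        _ = Y.card * m := by rw [sum_const, smul_eq_mul]
        _ ≤ s * m := Nat.mul_le_mul_right _ hYs
    have a3 : (L \ L').card + L'.card = L.card := card_sdiff_add_card_eq_card hL'L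
    rw [hL] at a3
    have a4 : ((L \ L').card : ℝ) ≤ s * m := by exact_mod_cast a2
    have a5 : ((L \ L').card : ℝ) + L'.card = g * m ^ 2 := by exact_mod_cast a3
    linarith
  have hlow := lower (κ := κ) hq hq1.le hκ h0 h1 L' f (fun a ha => hf a (hL'L ha))
    (fun a ha => by rw [hc a (hL'L ha), hg]) (m := m) (T := T) (R := R) (by
      intro j
      have : (L'.filter (fun a => j ∈ f a)).card ≤ (L.filter (fun a => j ∈ f a)).card :=
        card_le_card (filter_subset_filter _ hL'L)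
      have := this.trans (hdeg j)
      exact_mod_cast this)
    (fun i j hij a ha a' ha' => hpair i j hij a (hL'L ha) a' (hL'L ha')) Y hR hTpos hm0 hRTm
    (fun a ha => (mem_filter.1 ha).2)
  -- upper bound
  set Sm : Finset ι → Finset ℕ → ℝ := fun S N => ∑ a ∈ S ∩ L', Zt n μ q κ (f a \ e S) n N with hSm
  set F : Finset ι → Finset ℕ → ℝ := fun S N => |Sm S N - (S ∩ L').card| with hF
  set Rh := (Λ \ V).filter (fun S => D ≤ S.card) with hRh
  have hSm0 : ∀ S N, 0 ≤ Sm S N := fun S N => sum_nonneg fun a _ => Zt_nonneg hq n N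
  have hF0 : ∀ S N, 0 ≤ F S N := fun S N => abs_nonneg _
  have hScard : ∀ S ∈ Λ, ((S ∩ L').card : ℝ) ≤ S.card := by
    intro S _
    exact_mod_cast card_le_card inter_subset_left
  have hSbound : ∀ S ∈ Λ, ∀ N, Sm S N ≤ (g * m : ℝ) + ((if S ∈ V then F S N else 0) +
      (if S ∈ Rh then F S N else 0)) := by
    intro S hS N
    have a1 : Sm S N ≤ (g * m : ℝ) + F S N := by
      have b1 := le_abs_self (Sm S N - (S ∩ L').card)
      have b2 : (S.card : ℝ) ≤ g * m := by exact_mod_cast hSg S hS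
      have b3 := hScard S hS
      simp only [hF]
      linarith
    have hF0' := hF0 S N
    by_cases hV : S ∈ V
    · rw [if_pos hV]
      split_ifs
      · linarith
      · linarith
    · rw [if_neg hV]
      by_cases hD : D ≤ S.card
      · have : S ∈ Rh := by
          rw [hRh, mem_filter, mem_sdiff]; exact ⟨⟨hS, hV⟩, hD⟩
        rw [if_pos this]
        linarith
      · have : S ∉ Rh := by
          rw [hRh, mem_filter]; rintro ⟨_, h⟩; exact hD h
        rw [if_neg this]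
        have b1 : Sm S N ≤ (S ∩ L').card * R := by
          calc Sm S N ≤ ∑ _a ∈ S ∩ L', R := by
                apply sum_le_sum; intro a _
                rw [← hR]; exact Zt_le hq hq1.le n N
            _ = _ := by rw [sum_const, nsmul_eq_mul]
        have b2 : ((S ∩ L').card : ℝ) ≤ D := by
          have : (S.card : ℝ) ≤ D := by exact_mod_cast (not_le.1 hD).le
          exact (hScard S hS).trans this
        have b3 : ((S ∩ L').card : ℝ) * R ≤ D * R :=
          mul_le_mul_of_nonneg_right b2 (by linarith)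
        linarith
  have hup : E n μ (fun N => ∑ a ∈ L', Zt n μ q κ (f a) n N * (1 - low κ (f a) n N)) ≤
      E n μ (fun N => (s * (g * m) : ℝ) * 1 + (∑ S ∈ V, F S N + ∑ S ∈ Rh, F S N)) := by
    apply E_mono h0
    intro N hN hm'
    obtain ⟨k1, k2, k3⟩ := hKmem N (hmem N hm')
    obtain ⟨c1, c2, _⟩ := hcv N k1 k2
    have d1 : ∑ a ∈ L', Zt n μ q κ (f a) n N * (1 - low κ (f a) n N) ≤ ∑ S ∈ cv N, Sm S N := by
      have e1 : ∑ S ∈ cv N, Sm S N = ∑ a ∈ L', ∑ S ∈ (cv N).filter (fun S => a ∈ S),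
          Zt n μ q κ (f a \ e S) n N := by
        simp only [hSm]
        apply sum_comm'
        intro S a
        simp only [mem_inter, mem_filter]
        tauto
      rw [e1]
      apply sum_le_sum
      intro a ha
      have hterm : ∀ S ∈ (cv N).filter (fun S => a ∈ S), 0 ≤ Zt n μ q κ (f a \ e S) n N :=
        fun S _ => Zt_nonneg hq n N
      by_cases hlow : cnt (f a) n N < κ
      · have : low κ (f a) n N = 1 := by unfold low; rw [if_pos hlow]
        rw [this, sub_self, mul_zero]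
        exact sum_nonneg hterm
      · have hl0 : low κ (f a) n N = 0 := by unfold low; rw [if_neg hlow]
        rw [hl0, sub_zero, mul_one]
        have hcard : κ ≤ (N ∩ f a).card := by
          have := not_lt.1 hlow
          unfold cnt at this
          rwa [inter_eq_left.2 k1] at this
        obtain ⟨S, hS, haS⟩ := c2 a (hL'L ha) hcard
        have hd : e S ∩ N = ∅ := by
          by_contra hne
          obtain ⟨j, hj⟩ := nonempty_iff_ne_empty.2 hne
          rw [mem_inter] at hj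
          have hjY : j ∈ Y := by
            rw [← k3]
            exact mem_inter.2 ⟨hj.2, mem_biUnion.2 ⟨S, hS, hj.1⟩⟩
          have hja : j ∈ f a := by
            have := hj.1
            simp only [he] at this
            split_ifs at this
            · exact (mem_filter.1 this).2 a haS
            · simp at this
          exact (mem_filter.1 ha).2 j hja hjY
        exact (Zt_le_sdiff hq hd n).trans
          (single_le_sum hterm (mem_filter.2 ⟨hS, haS⟩))
    refine d1.trans ?_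
    have d2 : ∑ S ∈ cv N, Sm S N ≤ ∑ S ∈ cv N, ((g * m : ℝ) + ((if S ∈ V then F S N else 0) +
      (if S ∈ Rh then F S N else 0))) := sum_le_sum fun S hS => hSbound S (c1 hS) N
    refine d2.trans ?_
    rw [sum_add_distrib, sum_add_distrib, sum_const, nsmul_eq_mul]
    have d3 : ((cv N).card : ℝ) * (g * m) ≤ s * (g * m) := by
      apply mul_le_mul_of_nonneg_right _ (by positivity)
      exact_mod_cast hcs N k1 k2
    have d4 : ∀ W : Finset (Finset ι), ∑ S ∈ cv N, (if S ∈ W then F S N else 0) ≤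
        ∑ S ∈ W, F S N := by
      intro W
      rw [← sum_filter, filter_mem_eq_inter]
      exact sum_le_sum_of_subset_of_nonneg inter_subset_right fun S _ _ => hF0 S N
    have := d4 V
    have := d4 Rh
    linarith
  have hupr : E n μ (fun N => (s * (g * m) : ℝ) * 1 + (∑ S ∈ V, F S N + ∑ S ∈ Rh, F S N)) =
      s * (g * m) + (∑ S ∈ V, E n μ (F S) + ∑ S ∈ Rh, E n μ (F S)) := by
    rw [E_add, E_const_mul, h1, mul_one, E_add, E_sum, E_sum]
  rw [hupr] at hup
  have hdisj : ∀ S ∈ Λ, ∀ a ∈ S ∩ L', ∀ a' ∈ S ∩ L', a ≠ a' → ∀ j < n,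
      ¬ (j ∈ f a \ e S ∧ j ∈ f a' \ e S) := by
    intro S hS a ha a' ha' hne j hjn hj
    rw [mem_sdiff, mem_sdiff] at hj
    rw [mem_inter] at ha ha'
    apply hj.1.2
    have hcard2 : 2 ≤ S.card := one_lt_card.2 ⟨a, ha.1, a', ha'.1, hne⟩
    simp only [he]
    rw [if_pos hcard2, mem_filter, mem_range]
    exact ⟨hjn, hcol S hS a ha.1 a' ha'.1 hne j hj.1.1 hj.2.1⟩
  have hV1 : ∑ S ∈ V, E n μ (F S) ≤ m * (g * m / T) := by
    calc ∑ S ∈ V, E n μ (F S) ≤ ∑ _S ∈ V, (g * m / T : ℝ) := by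
          apply sum_le_sum
          intro S hS
          have hSΛ := hVΛ hS
          exact absmom (n := n) (μ := μ) (κ := κ) hq hq1.le (S ∩ L') (fun a => f a \ e S) n h0 h1
            (hdisj S hSΛ) hR hTpos ((hScard S hSΛ).trans (by exact_mod_cast hSg S hSΛ))
            (hRTm.trans hgm) (by positivity)
      _ = V.card * (g * m / T : ℝ) := by rw [sum_const, nsmul_eq_mul]
      _ ≤ m * (g * m / T) := by
          apply mul_le_mul_of_nonneg_right _ (by positivity)
          exact_mod_cast hVm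
  have hRh1 : ∑ S ∈ Rh, E n μ (F S) ≤ T0 * (g * m ^ 2) / T := by
    calc ∑ S ∈ Rh, E n μ (F S) ≤ ∑ S ∈ Rh, (S.card / T : ℝ) := by
          apply sum_le_sum
          intro S hS
          rw [hRh, mem_filter, mem_sdiff] at hS
          have hSΛ := hS.1.1
          have hDS : (D : ℝ) ≤ S.card := by exact_mod_cast hS.2
          have hD1 : 0 < (D : ℝ) := lt_of_lt_of_le (by positivity) hRT'
          exact absmom (n := n) (μ := μ) (κ := κ) hq hq1.le (S ∩ L') (fun a => f a \ e S) n h0 h1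
            (hdisj S hSΛ) hR hTpos (hScard S hSΛ) (hRT'.trans hDS) (lt_of_lt_of_le hD1 hDS)
      _ = (∑ S ∈ Rh, (S.card : ℝ)) / T := by rw [sum_div]
      _ ≤ T0 * (g * m ^ 2) / T := by
          apply div_le_div_of_nonneg_right _ hTpos.le
          rw [hL] at hrich
          exact_mod_cast hrich
  -- numerical contradiction
  set A : ℝ := (g : ℝ) * m ^ 2 with hA
  have hA0 : 0 < A := by positivity
  have hmA : (m : ℝ) ^ 2 ≤ A / 16 := by
    rw [hA, le_div_iff₀ (by norm_num)]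
    nlinarith [sq_nonneg (m : ℝ)]
  have f1 : (s : ℝ) * m ≤ A / 16000 := by
    have : (s : ℝ) * m ≤ m / 1000 * m := mul_le_mul_of_nonneg_right hsR hm0.le
    nlinarith
  have f2 : (s : ℝ) * (g * m) ≤ A / 1000 := by
    have : (s : ℝ) * (g * m) ≤ m / 1000 * (g * m) := mul_le_mul_of_nonneg_right hsR (by positivity)
    rw [hA]
    calc _ ≤ _ := this
      _ = _ := by ring
  have f3 : (m : ℝ) * (g * m / T) ≤ A / 100 := by
    have : (m : ℝ) * (g * m / T) = A / T := by rw [hA]; ring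
    rw [this]
    exact div_le_div_of_nonneg_left hA0.le (by norm_num) hTR
  have f4 : (T0 : ℝ) * A / T ≤ A / 10 := by
    rw [div_le_div_iff₀ hTpos (by norm_num)]
    have : (10 : ℝ) * T0 ≤ T := by exact_mod_cast hT0
    nlinarith
  have hκg : (1 : ℝ) / (8 * κ) = 2 / g := by
    rw [hg]; push_cast
    have : (0 : ℝ) < κ := by exact_mod_cast hκ
    field_simp; norm_num
  have f5 : (1 : ℝ) / (8 * κ) * (m * B) ≤ 2349 / 10000 * A := by
    have c1 : B ≤ 87 / 10000 * m / (15 / 100 * q) := by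
      rw [le_div_iff₀ (by positivity)]; linarith
    have c2 : 87 / 10000 * (m : ℝ) / (15 / 100 * q) = 116 / 1000 * ((g : ℝ) ^ 2 * m) := by
      rw [hqdef]; field_simp; norm_num
    rw [c2] at c1
    rw [hκg]
    calc 2 / (g : ℝ) * (m * B) ≤ 2 / (g : ℝ) * (m * (116 / 1000 * ((g : ℝ) ^ 2 * m))) := by
          gcongr
      _ = 232 / 1000 * A := by rw [hA]; field_simp; ring
      _ ≤ _ := by nlinarith
  have f6 : (1 : ℝ) / (8 * κ) * (n * (m / T)) ≤ A / 25 := by
    rw [hκg, hnR]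
    have : 2 / (g : ℝ) * (2 * (g : ℝ) ^ 2 * m * (m / T)) = 4 * A / T := by
      rw [hA]; field_simp; ring
    rw [this, div_le_div_iff₀ hTpos (by norm_num)]
    nlinarith
  have f7 : 3 / 4 * (A - s * m) ≤ 3 / 4 * (L'.card : ℝ) := by linarith
  have f8 : (1 : ℝ) / (8 * κ) * (m * B + n * (m / T)) =
      1 / (8 * κ) * (m * B) + 1 / (8 * κ) * (n * (m / T)) := by ring
  rw [f8] at hlow
  linarith

end Pool.Agent.H116.EN
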