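import Pool.Agent.H116.EN.Chern
import Pool.Graph.R_seed8.W281.Net.Sample

/-!
The entropy estimate: most conditional probabilities are at least `q / 2`, after conditioning the
random set with density `q` on an event of not too small probability.
-/

set_option autoImplicit false
open Finset Real

namespace Pool.Agent.H116.EN

open Pool.Agent.W281.Net

/-- relative entropy of the Bernoulli distributions -/
noncomputable def Dv (q p : ℝ) : ℝ :=
  p * log p + (1 - p) * log (1 - p) - p * log q - (1 - p) * log (1 - q)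

theorem Dv_part {q p : ℝ} (hq1 : q < 1) (h1 : p ≤ 1) :
    q - p ≤ (1 - p) * log (1 - p) - (1 - p) * log (1 - q) := by
  rcases eq_or_lt_of_le h1 with h | h
  · rw [h]; norm_num; exact hq1.le
  · have h2 : log ((1 - q) / (1 - p)) ≤ (1 - q) / (1 - p) - 1 :=
      log_le_sub_one_of_pos (div_pos (by linarith) (by linarith))
    rw [log_div (by linarith) (by linarith)] at h2
    have h3 := mul_le_mul_of_nonneg_left h2 (by linarith : (0 : ℝ) ≤ 1 - p)
    have h4 : (1 - p) * ((1 - q) / (1 - p) - 1) = p - q := by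
      have : 1 - p ≠ 0 := by linarith
      field_simp; ring
    rw [h4] at h3
    linarith

theorem Dv_nonneg {q p : ℝ} (hq : 0 < q) (hq1 : q < 1) (h0 : 0 ≤ p) (h1 : p ≤ 1) : 0 ≤ Dv q p := by
  have h2 := Dv_part hq1 h1
  have h3 := scalar2 (q := q) (lam := 0) hq h0
  simp only [neg_zero, exp_zero, mul_one, zero_mul, zero_add] at h3
  unfold Dv
  linarith

theorem Dv_bad {q p : ℝ} (hq : 0 < q) (hq1 : q < 1) (h0 : 0 ≤ p) (h1 : p < q / 2) :
    15 / 100 * q ≤ Dv q p := by
  have h2 := Dv_part hq1 (show p ≤ 1 by linarith)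
  have hl2 : log 2 < 0.6931471808 := log_two_lt_d9
  have h3 : 15 / 100 * q ≤ p * log p - p * log q - p + q := by
    rcases eq_or_lt_of_le h0 with h | h
    · rw [← h]; simp; linarith
    · have h4 : log (q / (2 * p)) ≤ q / (2 * p) - 1 := log_le_sub_one_of_pos (by positivity)
      rw [log_div (by positivity) (by positivity), log_mul (by norm_num) h.ne'] at h4
      have h5 := mul_le_mul_of_nonneg_left h4 h.le
      have h6 : p * (q / (2 * p) - 1) = q / 2 - p := by field_simp
      rw [h6] at h5
      have h7 : p * log 2 ≤ q / 2 * 0.6931471808 := by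
        apply mul_le_mul h1.le hl2.le (log_nonneg (by norm_num)) (by linarith)
      nlinarith
  unfold Dv
  linarith

variable {n : ℕ}

theorem ent {q : ℝ} (hq : 0 < q) (hq1 : q < 1) (K : Finset (Finset ℕ)) (Y : Finset ℕ)
    (hK : ∀ X ∈ K, X ⊆ range n ∧ Y ⊆ X) {Φ : ℝ} (hΦ : Φ = ∑ X ∈ K, w n q X) (hΦ0 : 0 < Φ)
    {μ : Finset ℕ → ℝ} (hμ : ∀ N, μ N = if N ∈ K then w n q N / Φ else 0) :
    15 / 100 * q * ∑ i ∈ range n \ Y, E n μ (bad n μ q i) ≤ - log Φ + Y.card * log q := by
  classical
  have hw : ∀ N, 0 ≤ w n q N := fun N => w_nonneg hq.le hq1.le N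
  have h0 : ∀ N, 0 ≤ μ N := by
    intro N; rw [hμ]; split_ifs
    · exact div_nonneg (hw N) hΦ0.le
    · exact le_refl _
  have hmem : ∀ N, μ N ≠ 0 → N ∈ K := by
    intro N h; by_contra hc; exact h (by rw [hμ, if_neg hc])
  have hKsub : K ⊆ (range n).powerset := fun N hN => mem_powerset.2 (hK N hN).1
  have h1 : E n μ (fun _ => 1) = 1 := by
    unfold E
    simp only [mul_one, hμ]
    rw [← sum_filter, filter_mem_eq_inter, inter_eq_right.2 hKsub, ← sum_div, ← hΦ]
    exact div_self hΦ0.ne'
  have hKne : K.Nonempty := by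
    by_contra hc
    rw [not_nonempty_iff_eq_empty] at hc
    rw [hc] at hΦ
    simp at hΦ
    linarith
  have hYn : Y ⊆ range n := by
    obtain ⟨X, hX⟩ := hKne
    exact (hK X hX).2.trans (hK X hX).1
  have hq1' : 0 < 1 - q := by linarith
  -- the chain rule
  have e1 : E n μ (fun N => (N.card : ℝ) * log q + ((n : ℝ) - N.card) * log (1 - q) - log Φ) =
      ∑ i ∈ range n, E n μ (fun N => pr n μ i N * log (pr n μ i N) +
        (1 - pr n μ i N) * log (1 - pr n μ i N)) := by
    have a1 : E n μ (fun N => (N.card : ℝ) * log q + ((n : ℝ) - N.card) * log (1 - q) - log Φ) =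
        E n μ (fun N => ∑ i ∈ range n,
        (xi i N * log (pr n μ i N) + (1 - xi i N) * log (1 - pr n μ i N))) := by
      apply E_congr
      intro N hN hm
      rw [← log_mu h0 h1 hN hm, hμ N, if_pos (hmem N hm)]
      unfold w
      rw [log_div (by positivity) hΦ0.ne', log_mul (by positivity) (by positivity), log_pow, log_pow]
      have hc : ((range n \ N).card : ℝ) = n - N.card := by
        have := card_sdiff_add_card_eq_card hN
        rw [card_range] at this
        have h2 : ((range n \ N).card : ℝ) + N.card = n := by exact_mod_cast this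
        linarith
      rw [hc]
    rw [a1, E_sum]
    apply sum_congr rfl
    intro i _
    have b1 := star' (n := n) h0 i (meas_log_pr (n := n) (μ := μ) i)
    have b2 := star' (n := n) h0 i (meas_log_pr' (n := n) (μ := μ) i)
    have b3 : ∀ N, xi i N * log (pr n μ i N) + (1 - xi i N) * log (1 - pr n μ i N) =
        xi i N * log (pr n μ i N) + (log (1 - pr n μ i N) - xi i N * log (1 - pr n μ i N)) := by
      intro N; ring
    have b4 : ∀ N, pr n μ i N * log (pr n μ i N) + (1 - pr n μ i N) * log (1 - pr n μ i N) =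
        pr n μ i N * log (pr n μ i N) +
          (log (1 - pr n μ i N) - pr n μ i N * log (1 - pr n μ i N)) := by
      intro N; ring
    simp only [b3, b4]
    rw [E_add, E_sub, b1, b2, ← E_sub, ← E_add]
  have e2 : E n μ (fun N => (N.card : ℝ) * log q + ((n : ℝ) - N.card) * log (1 - q) - log Φ) =
      ∑ i ∈ range n, E n μ (fun N => pr n μ i N * log q + (1 - pr n μ i N) * log (1 - q)) -
        log Φ := by
    have a1 : ∀ i ∈ range n, E n μ (fun N => pr n μ i N * log q + (1 - pr n μ i N) * log (1 - q)) =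
        (log q - log (1 - q)) * E n μ (pr n μ i) + log (1 - q) := by
      intro i _
      have : ∀ N, pr n μ i N * log q + (1 - pr n μ i N) * log (1 - q) =
          (log q - log (1 - q)) * pr n μ i N + log (1 - q) * 1 := by intro N; ring
      simp only [this]
      rw [E_add, E_const_mul, E_const_mul, h1, mul_one]
    rw [sum_congr rfl a1, sum_add_distrib, ← mul_sum, E_pr_sum h0, sum_const, card_range,
      nsmul_eq_mul]
    have : ∀ N : Finset ℕ, (N.card : ℝ) * log q + ((n : ℝ) - N.card) * log (1 - q) - log Φ =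
        (log q - log (1 - q)) * (N.card : ℝ) + ((n : ℝ) * log (1 - q) - log Φ) * 1 := by
      intro N; ring
    simp only [this]
    rw [E_add, E_const_mul, E_const_mul, h1]
    ring
  have e3 : - log Φ = ∑ i ∈ range n, E n μ (fun N => Dv q (pr n μ i N)) := by
    have a1 : ∀ i ∈ range n, E n μ (fun N => Dv q (pr n μ i N)) =
        E n μ (fun N => pr n μ i N * log (pr n μ i N) +
          (1 - pr n μ i N) * log (1 - pr n μ i N)) -
        E n μ (fun N => pr n μ i N * log q + (1 - pr n μ i N) * log (1 - q)) := by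
      intro i _
      rw [← E_sub]
      congr 1
      funext N
      unfold Dv; ring
    rw [sum_congr rfl a1, sum_sub_distrib, ← e1, e2]
    ring
  -- split the sum
  have e4 : ∑ i ∈ range n, E n μ (fun N => Dv q (pr n μ i N)) =
      ∑ i ∈ range n \ Y, E n μ (fun N => Dv q (pr n μ i N)) +
      ∑ i ∈ Y, E n μ (fun N => Dv q (pr n μ i N)) := (sum_sdiff hYn).symm
  have e5 : ∀ i ∈ Y, E n μ (fun N => Dv q (pr n μ i N)) = - log q := by
    intro i hi
    have a1 : ∀ N ⊆ range n, μ N ≠ 0 → pr n μ i N = 1 := by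
      intro N hN hm
      have hcls : 0 < cls n μ i N :=
        lt_of_lt_of_le (lt_of_le_of_ne (h0 N) (Ne.symm hm)) (le_cls h0 i (mem_powerset.2 hN))
      have : cls1 n μ i N = cls n μ i N := by
        unfold cls1 cls
        apply sum_congr rfl
        intro N' _
        by_cases hm' : μ N' = 0
        · rw [hm']; simp
        · have : i ∈ N' := (hK N' (hmem N' hm')).2 hi
          rw [if_pos this]
      unfold pr
      rw [this, div_self hcls.ne']
    have a2 : E n μ (fun N => Dv q (pr n μ i N)) = E n μ (fun _ => (- log q) * 1) := by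
      apply E_congr
      intro N hN hm
      rw [a1 N hN hm]
      unfold Dv
      simp
    rw [a2, E_const_mul, h1, mul_one]
  have e6 : ∀ i ∈ range n \ Y, 15 / 100 * q * E n μ (bad n μ q i) ≤
      E n μ (fun N => Dv q (pr n μ i N)) := by
    intro i _
    rw [← E_const_mul]
    apply E_mono' h0
    intro N
    have p0 := pr_nonneg (n := n) h0 i N
    have p1 := pr_le_one (n := n) h0 i N
    unfold bad
    split_ifs with hb
    · rw [mul_one]; exact Dv_bad hq hq1 p0 hb
    · rw [mul_zero]; exact Dv_nonneg hq hq1 p0 p1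
  have e7 := sum_le_sum e6
  rw [← mul_sum] at e7
  rw [e3, e4, sum_congr rfl e5, sum_const, nsmul_eq_mul]
  linarith

theorem sum_small {q lam : ℝ} (hq : 0 < q) (hlam : 0 ≤ lam) (n s : ℕ) :
    ∑ Y ∈ (range n).powerset.filter (fun Y => Y.card ≤ s), q ^ Y.card ≤
      exp (lam * s + n * q * exp (-lam)) := by
  have h1 : ∑ Y ∈ (range n).powerset.filter (fun Y => Y.card ≤ s), q ^ Y.card ≤
      ∑ Y ∈ (range n).powerset, exp (lam * s) * ((q * exp (-lam)) ^ Y.card * 1 ^ ((range n).card - Y.card)) := by
    refine le_trans (sum_le_sum fun Y hY => ?_) (sum_le_sum_of_subset_of_nonneg (filter_subset _ _)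
      fun Y _ _ => by positivity)
    rw [mem_filter] at hY
    have h2 : exp (lam * s) * ((q * exp (-lam)) ^ Y.card * 1 ^ ((range n).card - Y.card)) =
        q ^ Y.card * exp (lam * s - lam * Y.card) := by
      rw [one_pow, mul_one, mul_pow, ← exp_nat_mul, sub_eq_add_neg, exp_add]
      have : (Y.card : ℝ) * -lam = -(lam * Y.card) := by ring
      rw [this]; ring
    rw [h2]
    have h3 : (Y.card : ℝ) ≤ s := by exact_mod_cast hY.2
    have h4 : 1 ≤ exp (lam * s - lam * Y.card) := by
      apply one_le_exp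
      have := mul_le_mul_of_nonneg_left h3 hlam
      linarith
    have h5 : 0 < q ^ Y.card := by positivity
    nlinarith
  refine h1.trans ?_
  rw [← mul_sum, sum_pow_mul_eq_add_pow, exp_add, card_range]
  apply mul_le_mul_of_nonneg_left _ (exp_pos _).le
  have h6 : q * exp (-lam) + 1 ≤ exp (q * exp (-lam)) := add_one_le_exp _
  calc (q * exp (-lam) + 1) ^ n ≤ (exp (q * exp (-lam))) ^ n := by
        apply pow_le_pow_left₀ _ h6
        positivity
    _ = exp (n * q * exp (-lam)) := by rw [← exp_nat_mul]; congr 1; ring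

theorem half_mass {q : ℝ} (hq : 0 < q) (hq1 : q < 1) {n m : ℕ} (hm : 0 < m)
    (hnq : (n : ℝ) * q = m) :
    1 / 2 ≤ ∑ X ∈ (range n).powerset.filter (fun X => X.card ≤ 2 * m), w n q X := by
  have hw : ∀ N, 0 ≤ w n q N := fun N => w_nonneg hq.le hq1.le N
  have h1 := sum_w n q
  have h2 := sum_w_card n q
  rw [hnq] at h2
  have hm0 : (0 : ℝ) < m := by exact_mod_cast hm
  have h3 : ∑ X ∈ (range n).powerset.filter (fun X => ¬ X.card ≤ 2 * m), w n q X ≤ 1 / 2 := by
    have : ∑ X ∈ (range n).powerset.filter (fun X => ¬ X.card ≤ 2 * m), w n q X ≤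
        ∑ X ∈ (range n).powerset, w n q X * (X.card : ℝ) / (2 * m) := by
      refine le_trans (sum_le_sum fun X hX => ?_) (sum_le_sum_of_subset_of_nonneg
        (filter_subset _ _) fun X _ _ => div_nonneg (mul_nonneg (hw X) (Nat.cast_nonneg _))
          (by positivity))
      rw [mem_filter, not_le] at hX
      have h4 : (2 : ℝ) * m ≤ X.card := by exact_mod_cast hX.2.le
      rw [le_div_iff₀ (by positivity)]
      exact mul_le_mul_of_nonneg_left h4 (hw X)
    rw [← sum_div, h2] at this
    refine this.trans (le_of_eq ?_)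
    field_simp
  have h5 := sum_filter_add_sum_filter_not (range n).powerset (fun X => X.card ≤ 2 * m)
    (fun X => w n q X)
  linarith

/-- There is a trace `Y` which occurs with a large probability. -/
theorem choose_trace {q lam : ℝ} (hq : 0 < q) (hq1 : q < 1) (hlam : 0 ≤ lam) {n m s : ℕ}
    (hm : 0 < m) (hnq : (n : ℝ) * q = m) (Yf : Finset ℕ → Finset ℕ)
    (hY : ∀ X ⊆ range n, X.card ≤ 2 * m → Yf X ⊆ X ∧ (Yf X).card ≤ s) :
    ∃ Y : Finset ℕ, Y.card ≤ s ∧
      0 < ∑ X ∈ (range n).powerset.filter (fun X => X.card ≤ 2 * m ∧ Yf X = Y), w n q X ∧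
      - log (∑ X ∈ (range n).powerset.filter (fun X => X.card ≤ 2 * m ∧ Yf X = Y), w n q X) +
        Y.card * log q ≤ log 2 + (lam * s + m * exp (-lam)) := by
  classical
  by_contra hcon
  push Not at hcon
  set H : ℝ := lam * s + m * exp (-lam) with hH
  set P := (range n).powerset.filter (fun Y => Y.card ≤ s) with hP
  have hw : ∀ N, 0 ≤ w n q N := fun N => w_nonneg hq.le hq1.le N
  have hlt : ∀ Y ∈ P, ∑ X ∈ (range n).powerset.filter (fun X => X.card ≤ 2 * m ∧ Yf X = Y),
      w n q X < 1 / 2 * (q ^ Y.card * exp (-H)) := by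
    intro Y hYP
    rw [hP, mem_filter] at hYP
    have hpos : 0 < 1 / 2 * (q ^ Y.card * exp (-H)) := by positivity
    rcases (sum_nonneg fun X _ => hw X : 0 ≤ ∑ X ∈ (range n).powerset.filter
      (fun X => X.card ≤ 2 * m ∧ Yf X = Y), w n q X).eq_or_lt with h | h
    · rw [← h]; exact hpos
    · have h2 := hcon Y hYP.2 h
      by_contra hge
      push Not at hge
      have h3 := log_le_log hpos hge
      rw [log_mul (by norm_num) (by positivity), log_mul (by positivity) (by positivity), log_exp,
        log_pow] at h3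
      have h4 : log (1 / 2 : ℝ) = - log 2 := by rw [one_div, log_inv]
      linarith
  have hPne : P.Nonempty := ⟨∅, by rw [hP, mem_filter]; simp⟩
  have h1 := sum_lt_sum_of_nonempty hPne hlt
  have h2 : ∑ Y ∈ P, ∑ X ∈ (range n).powerset.filter (fun X => X.card ≤ 2 * m ∧ Yf X = Y),
      w n q X = ∑ X ∈ (range n).powerset.filter (fun X => X.card ≤ 2 * m), w n q X := by
    have : ∀ Y ∈ P, ∑ X ∈ (range n).powerset.filter (fun X => X.card ≤ 2 * m ∧ Yf X = Y),
        w n q X = ∑ X ∈ ((range n).powerset.filter (fun X => X.card ≤ 2 * m)).filter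
          (fun X => Yf X = Y), w n q X := by
      intro Y _
      rw [filter_filter]
    rw [sum_congr rfl this]
    apply sum_fiberwise_of_maps_to
    intro X hX
    rw [mem_filter, mem_powerset] at hX
    rw [hP, mem_filter, mem_powerset]
    obtain ⟨a, b⟩ := hY X hX.1 hX.2
    exact ⟨a.trans hX.1, b⟩
  rw [h2, ← mul_sum, ← sum_mul] at h1
  have h3 := half_mass hq hq1 hm hnq
  have h4 := sum_small hq hlam n s
  rw [hnq] at h4
  rw [← hH, ← hP] at h4
  have h5 : (∑ Y ∈ P, q ^ Y.card) * exp (-H) ≤ 1 := by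
    calc (∑ Y ∈ P, q ^ Y.card) * exp (-H) ≤ exp H * exp (-H) :=
          mul_le_mul_of_nonneg_right h4 (exp_pos _).le
      _ = 1 := by rw [← exp_add, add_neg_cancel, exp_zero]
  linarith

end Pool.Agent.H116.EN
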