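import Pool.Agent.H116.EN.Core

/-!
The incidence structure: an `m` by `g m` grid and the lines of slopes `0, …, g - 1`.
-/

set_option autoImplicit false
open Finset

namespace Pool.Agent.H116.EN

/-- Grid points. -/
def grid (g m : ℕ) : Finset (ℕ × ℕ) := range m ×ˢ range (g * m)

/-- The indices of the lines through the grid point `a`. -/
def fam (g m : ℕ) (a : ℕ × ℕ) : Finset ℕ :=
  (range (2 * g ^ 2 * m)).filter
    (fun j => j % (2 * (g * m)) + (j / (2 * (g * m))) * a.1 = a.2 + g * m)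

theorem mem_grid {g m : ℕ} {a : ℕ × ℕ} : a ∈ grid g m ↔ a.1 < m ∧ a.2 < g * m := by
  unfold grid; rw [mem_product, mem_range, mem_range]

theorem mem_fam {g m : ℕ} {a : ℕ × ℕ} {j : ℕ} : j ∈ fam g m a ↔
    j < 2 * g ^ 2 * m ∧ j % (2 * (g * m)) + (j / (2 * (g * m))) * a.1 = a.2 + g * m := by
  unfold fam; rw [mem_filter, mem_range]

theorem card_grid (g m : ℕ) : (grid g m).card = g * m ^ 2 := by
  unfold grid; rw [card_product, card_range, card_range]; ring

theorem fam_subset (g m : ℕ) (a : ℕ × ℕ) : fam g m a ⊆ range (2 * g ^ 2 * m) := filter_subset _ _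

theorem card_fam {g m : ℕ} (hg : 0 < g) (hm : 0 < m) {a : ℕ × ℕ} (ha : a ∈ grid g m) :
    (fam g m a).card = g := by
  rw [mem_grid] at ha
  have hT : 0 < 2 * (g * m) := by positivity
  have key : ∀ s < g, s * a.1 ≤ a.2 + g * m ∧ a.2 + g * m - s * a.1 < 2 * (g * m) := by
    intro s hs
    have h1 : s * a.1 ≤ g * m := Nat.mul_le_mul hs.le ha.1.le
    omega
  have himg : fam g m a =
      (range g).image (fun s => (a.2 + g * m - s * a.1) + (2 * (g * m)) * s) := by
    ext j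
    rw [mem_fam, mem_image]
    constructor
    · rintro ⟨h1, h2⟩
      refine ⟨j / (2 * (g * m)), ?_, ?_⟩
      · rw [mem_range]
        apply Nat.div_lt_of_lt_mul
        calc j < 2 * g ^ 2 * m := h1
          _ = 2 * (g * m) * g := by ring
      · rw [← h2, Nat.add_sub_cancel, Nat.mod_add_div]
    · rintro ⟨s, hs, rfl⟩
      rw [mem_range] at hs
      obtain ⟨k1, k2⟩ := key s hs
      have e1 : ((a.2 + g * m - s * a.1) + (2 * (g * m)) * s) / (2 * (g * m)) = s := by
        rw [Nat.add_mul_div_left _ _ hT, Nat.div_eq_of_lt k2, zero_add]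
      have e2 : ((a.2 + g * m - s * a.1) + (2 * (g * m)) * s) % (2 * (g * m)) =
          a.2 + g * m - s * a.1 := by
        rw [Nat.add_mul_mod_self_left, Nat.mod_eq_of_lt k2]
      refine ⟨?_, ?_⟩
      · calc (a.2 + g * m - s * a.1) + (2 * (g * m)) * s < 2 * (g * m) + (2 * (g * m)) * s := by
              omega
          _ = 2 * (g * m) * (s + 1) := by ring
          _ ≤ 2 * (g * m) * g := Nat.mul_le_mul_left _ hs
          _ = 2 * g ^ 2 * m := by ring
      · rw [e1, e2]; omega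
  rw [himg, card_image_of_injOn, card_range]
  intro s hs s' hs' h
  simp only [coe_range, Set.mem_Iio] at hs hs'
  simp only at h
  obtain ⟨_, k2⟩ := key s hs
  obtain ⟨_, k2'⟩ := key s' hs'
  have e1 : ((a.2 + g * m - s * a.1) + (2 * (g * m)) * s) / (2 * (g * m)) = s := by
    rw [Nat.add_mul_div_left _ _ hT, Nat.div_eq_of_lt k2, zero_add]
  have e2 : ((a.2 + g * m - s' * a.1) + (2 * (g * m)) * s') / (2 * (g * m)) = s' := by
    rw [Nat.add_mul_div_left _ _ hT, Nat.div_eq_of_lt k2', zero_add]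
  rw [← e1, h, e2]

theorem deg_fam (g m : ℕ) (j : ℕ) :
    ((grid g m).filter (fun a => j ∈ fam g m a)).card ≤ m := by
  have h : ((grid g m).filter (fun a => j ∈ fam g m a)).card ≤ (range m).card := by
    apply card_le_card_of_injOn (fun a => a.1)
    · intro a ha
      rw [mem_coe, mem_filter, mem_grid] at ha
      simp only [coe_range, Set.mem_Iio]
      exact ha.1.1
    · intro a ha a' ha' h
      rw [mem_coe, mem_filter, mem_fam] at ha ha'
      simp only at h
      have h1 := ha.2.2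
      have h2 := ha'.2.2
      rw [h] at h1
      ext
      · exact h
      · omega
  rwa [card_range] at h

theorem pair_fam {g m : ℕ} : ∀ i j, i < j → ∀ a ∈ grid g m, ∀ a' ∈ grid g m, i ∈ fam g m a →
    i ∈ fam g m a' → j ∈ fam g m a → j ∈ fam g m a' → a = a' := by
  intro i j hij a _ a' _ h1 h2 h3 h4
  rw [mem_fam] at h1 h2 h3 h4
  have k1 := h1.2
  have k2 := h2.2
  have k3 := h3.2
  have k4 := h4.2
  have hi := Nat.mod_add_div i (2 * (g * m))
  have hj := Nat.mod_add_div j (2 * (g * m))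
  generalize i % (2 * (g * m)) = t at k1 k2 hi
  generalize i / (2 * (g * m)) = s at k1 k2 hi
  generalize j % (2 * (g * m)) = t' at k3 k4 hj
  generalize j / (2 * (g * m)) = s' at k3 k4 hj
  have hx : a.1 = a'.1 := by
    by_contra hne
    zify at k1 k2 k3 k4 hi hj hne
    have e1 : (s : ℤ) * (a.1 - a'.1) = a.2 - a'.2 := by linarith
    have e2 : (s' : ℤ) * (a.1 - a'.1) = a.2 - a'.2 := by linarith
    have e3 : ((s : ℤ) - s') * (a.1 - a'.1) = 0 := by linarith
    have e4 : (a.1 : ℤ) - a'.1 ≠ 0 := sub_ne_zero.2 hne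
    have e5 : (s : ℤ) - s' = 0 := by
      rcases mul_eq_zero.1 e3 with h | h
      · exact h
      · exact absurd h e4
    have e6 : (s : ℤ) = s' := by linarith
    have e7 : (t : ℤ) = t' := by rw [e6] at k1; linarith
    have : (i : ℤ) = j := by rw [← hi, ← hj, e6, e7]
    omega
  ext
  · exact hx
  · rw [hx] at k1; omega

/-- `S` is the trace of a line on the grid (or has at most one point). -/
def IsTr (L S : Finset (ℕ × ℕ)) : Prop :=
  ∀ a ∈ S, ∀ a' ∈ S, a ≠ a' → ∀ c ∈ L,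
    (c ∈ S ↔ ((c.1 : ℤ) - a.1) * ((a'.2 : ℤ) - a.2) = ((c.2 : ℤ) - a.2) * ((a'.1 : ℤ) - a.1))

open scoped Classical in
/-- The traces of lines. -/
noncomputable def Lam (L : Finset (ℕ × ℕ)) : Finset (Finset (ℕ × ℕ)) :=
  L.powerset.filter (fun S => IsTr L S)

open scoped Classical in
/-- The traces of vertical lines. -/
noncomputable def Ver (L : Finset (ℕ × ℕ)) : Finset (Finset (ℕ × ℕ)) :=
  (Lam L).filter (fun S => ∃ a ∈ S, ∃ a' ∈ S, a ≠ a' ∧ a.1 = a'.1)

theorem mem_Lam {L S : Finset (ℕ × ℕ)} : S ∈ Lam L ↔ S ⊆ L ∧ IsTr L S := by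
  classical
  unfold Lam; simp only [mem_filter, mem_powerset]

theorem mem_Ver {L S : Finset (ℕ × ℕ)} : S ∈ Ver L ↔ S ∈ Lam L ∧
    ∃ a ∈ S, ∃ a' ∈ S, a ≠ a' ∧ a.1 = a'.1 := by
  classical
  unfold Ver; simp only [mem_filter]

theorem Ver_subset (L : Finset (ℕ × ℕ)) : Ver L ⊆ Lam L := filter_subset _ _

theorem col_fam {g m : ℕ} {L S : Finset (ℕ × ℕ)} (hS : S ∈ Lam L) :
    ∀ a ∈ S, ∀ a' ∈ S, a ≠ a' → ∀ i, i ∈ fam g m a → i ∈ fam g m a' → ∀ c ∈ S, i ∈ fam g m c := by
  intro a ha a' ha' hne i hi hi' c hc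
  rw [mem_Lam] at hS
  rw [mem_fam] at hi hi' ⊢
  refine ⟨hi.1, ?_⟩
  have k1 := hi.2
  have k2 := hi'.2
  generalize i % (2 * (g * m)) = t at k1 k2
  generalize i / (2 * (g * m)) = s at k1 k2
  have h := (hS.2 a ha a' ha' hne c (hS.1 hc)).1 hc
  have hx : a.1 ≠ a'.1 := by
    intro hx
    apply hne
    ext
    · exact hx
    · rw [hx] at k1; omega
  zify at k1 k2 hx ⊢
  have e1 : (a'.2 : ℤ) - a.2 = s * (a'.1 - a.1) := by linarith
  rw [e1] at h
  have e2 : ((a'.1 : ℤ) - a.1) * (s * (c.1 - a.1) - (c.2 - a.2)) = 0 := by linarith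
  rcases mul_eq_zero.1 e2 with h' | h'
  · exact absurd (by linarith) hx
  · linarith

theorem Ver_eq {g m : ℕ} {S : Finset (ℕ × ℕ)} (hS : S ∈ Ver (grid g m)) :
    ∃ x < m, S = ({x} : Finset ℕ) ×ˢ range (g * m) := by
  obtain ⟨h1, a, ha, a', ha', hne, hx⟩ := mem_Ver.1 hS
  rw [mem_Lam] at h1
  have hy : (a'.2 : ℤ) - a.2 ≠ 0 := by
    intro h
    apply hne
    ext
    · exact hx
    · omega
  have haL := mem_grid.1 (h1.1 ha)
  refine ⟨a.1, haL.1, ?_⟩
  have key : ∀ c ∈ grid g m, (c ∈ S ↔ c.1 = a.1) := by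
    intro c hc
    rw [h1.2 a ha a' ha' hne c hc, hx, sub_self, mul_zero, mul_eq_zero]
    constructor
    · rintro (h | h)
      · omega
      · exact absurd h hy
    · intro h
      left
      rw [h]; ring
  ext c
  rw [mem_product, mem_singleton, mem_range]
  constructor
  · intro hc
    have hcL := h1.1 hc
    exact ⟨(key c hcL).1 hc, (mem_grid.1 hcL).2⟩
  · rintro ⟨h2, h3⟩
    have hcL : c ∈ grid g m := mem_grid.2 ⟨by rw [h2]; exact haL.1, h3⟩
    exact (key c hcL).2 h2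

theorem card_Ver (g m : ℕ) : (Ver (grid g m)).card ≤ m := by
  have h : Ver (grid g m) ⊆ (range m).image (fun x => ({x} : Finset ℕ) ×ˢ range (g * m)) := by
    intro S hS
    obtain ⟨x, hx, rfl⟩ := Ver_eq hS
    exact mem_image_of_mem _ (mem_range.2 hx)
  calc _ ≤ _ := card_le_card h
    _ ≤ (range m).card := card_image_le
    _ = m := card_range m

theorem injOn_fst {L S : Finset (ℕ × ℕ)} (hS : S ∈ Lam L) (hV : S ∉ Ver L) :
    Set.InjOn (fun a : ℕ × ℕ => a.1) S := by
  intro a ha a' ha' h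
  by_contra hne
  exact hV (mem_Ver.2 ⟨hS, a, ha, a', ha', hne, h⟩)

theorem card_trace {g m : ℕ} (hg : 0 < g) {S : Finset (ℕ × ℕ)} (hS : S ∈ Lam (grid g m)) :
    S.card ≤ g * m := by
  by_cases hV : S ∈ Ver (grid g m)
  · obtain ⟨x, _, rfl⟩ := Ver_eq hV
    rw [card_product, card_singleton, card_range, one_mul]
  · have h1 : S.card ≤ (range m).card := by
      apply card_le_card_of_injOn (fun a => a.1) _ (injOn_fst hS hV)
      intro a ha
      rw [coe_range, Set.mem_Iio]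
      exact (mem_grid.1 ((mem_Lam.1 hS).1 ha)).1
    rw [card_range] at h1
    calc S.card ≤ m := h1
      _ ≤ g * m := Nat.le_mul_of_pos_left m hg

/-- The directions of rich lines. -/
noncomputable def Dir (g R : ℕ) : Finset (ℕ × ℤ) :=
  range (2 * R) ×ˢ Finset.Icc (-(4 * g * R ^ 2 : ℤ)) (4 * g * R ^ 2)

theorem card_Dir {g R : ℕ} (hg : 0 < g) (hR : 0 < R) : (Dir g R).card ≤ 18 * g * R ^ 3 := by
  unfold Dir
  rw [card_product, card_range, Int.card_Icc]
  have h1 : (4 * (g : ℤ) * R ^ 2 + 1 - -(4 * g * R ^ 2)).toNat = 8 * g * R ^ 2 + 1 := by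
    have : (4 * (g : ℤ) * R ^ 2 + 1 - -(4 * g * R ^ 2)) = ((8 * g * R ^ 2 + 1 : ℕ) : ℤ) := by
      push_cast; ring
    rw [this, Int.toNat_natCast]
  rw [h1]
  have h2 : 1 ≤ g * R ^ 2 := Nat.succ_le_of_lt (by positivity)
  calc 2 * R * (8 * g * R ^ 2 + 1) ≤ 2 * R * (8 * g * R ^ 2 + g * R ^ 2) := by gcongr
    _ = 18 * g * R ^ 3 := by ring

/-- Every rich trace has a short direction. -/
theorem exists_dir {g D R : ℕ} (hD : 3 ≤ D) (hR : 0 < R) {S : Finset (ℕ × ℕ)}
    (hS : S ∈ Lam (grid g (R * D))) (hV : S ∉ Ver (grid g (R * D))) (hDS : D ≤ S.card) :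
    ∃ a ∈ S, ∃ a' ∈ S, a.1 < a'.1 ∧ a'.1 - a.1 < 2 * R ∧
      |(a'.2 : ℤ) - a.2| ≤ 4 * g * R ^ 2 := by
  have hinj := injOn_fst hS hV
  have hSL := (mem_Lam.1 hS).1
  -- pigeonhole
  have hph : ∃ a ∈ S, ∃ a' ∈ S, a ≠ a' ∧ a.1 / (2 * R) = a'.1 / (2 * R) := by
    apply exists_ne_map_eq_of_card_lt_of_maps_to (t := range (D / 2 + 1))
    · rw [card_range]; omega
    · intro a ha
      have := (mem_grid.1 (hSL ha)).1
      rw [mem_coe, mem_range]
      show a.1 / (2 * R) < D / 2 + 1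
      have h2 : a.1 / (2 * R) ≤ D / 2 := by
        calc a.1 / (2 * R) ≤ (R * D) / (2 * R) := Nat.div_le_div_right this.le
          _ = (R * D) / (R * 2) := by rw [mul_comm 2 R]
          _ = D / 2 := Nat.mul_div_mul_left _ _ hR
      omega
  obtain ⟨a, ha, a', ha', hne, hdiv⟩ := hph
  have hne1 : a.1 ≠ a'.1 := fun h => hne (hinj ha ha' h)
  -- order them
  have hord : ∃ a ∈ S, ∃ a' ∈ S, a.1 < a'.1 ∧ a'.1 - a.1 < 2 * R := by
    have hR2 : 0 < 2 * R := by omega
    have u1 := Nat.div_add_mod a.1 (2 * R)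
    have u2 := Nat.div_add_mod a'.1 (2 * R)
    have v1 := Nat.mod_lt a.1 hR2
    have v2 := Nat.mod_lt a'.1 hR2
    rw [hdiv] at u1
    rcases lt_or_gt_of_ne hne1 with h | h
    · exact ⟨a, ha, a', ha', h, by omega⟩
    · exact ⟨a', ha', a, ha, h, by omega⟩
  clear hne1 hdiv hne ha' ha
  obtain ⟨a, ha, a', ha', hlt, hb⟩ := hord
  refine ⟨a, ha, a', ha', hlt, hb, ?_⟩
  have hne : a ≠ a' := by rintro rfl; omega
  -- extreme points
  have hSne : S.Nonempty := ⟨a, ha⟩
  obtain ⟨p, hp, hpmin⟩ := exists_min_image S (fun x => x.1) hSne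
  obtain ⟨r, hr, hrmax⟩ := exists_max_image S (fun x => x.1) hSne
  have hwidth : D ≤ r.1 - p.1 + 1 := by
    calc D ≤ S.card := hDS
      _ ≤ (Finset.Icc p.1 r.1).card := by
          apply card_le_card_of_injOn (fun x => x.1) _ hinj
          intro x hx
          rw [coe_Icc, Set.mem_Icc]
          exact ⟨hpmin x hx, hrmax x hx⟩
      _ = r.1 + 1 - p.1 := Nat.card_Icc _ _
      _ = r.1 - p.1 + 1 := by have := hpmin r hr; omega
  have htr := (mem_Lam.1 hS).2
  have k1 := (htr a ha a' ha' hne p (hSL hp)).1 hp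
  have k2 := (htr a ha a' ha' hne r (hSL hr)).1 hr
  have hpy := (mem_grid.1 (hSL hp)).2
  have hry := (mem_grid.1 (hSL hr)).2
  have hpr := hpmin r hr
  set c : ℤ := (a'.2 : ℤ) - a.2 with hc
  set b : ℤ := (a'.1 : ℤ) - a.1 with hbdef
  have hb0 : 0 < b := by omega
  have hb2 : b < 2 * R := by omega
  have k3 : ((r.1 : ℤ) - p.1) * c = ((r.2 : ℤ) - p.2) * b := by linarith
  have hw : (D : ℤ) - 1 ≤ (r.1 : ℤ) - p.1 := by omega
  have hyb : |(r.2 : ℤ) - p.2| ≤ g * (R * D) := by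
    rw [abs_le]
    constructor
    · have : (p.2 : ℤ) < g * (R * D) := by exact_mod_cast hpy
      linarith [Int.natCast_nonneg r.2]
    · have : (r.2 : ℤ) < g * (R * D) := by exact_mod_cast hry
      linarith [Int.natCast_nonneg p.2]
  have k4 : ((r.1 : ℤ) - p.1) * |c| = |(r.2 : ℤ) - p.2| * b := by
    have := congrArg abs k3
    rw [abs_mul, abs_mul, abs_of_nonneg (by omega : 0 ≤ (r.1 : ℤ) - p.1),
      abs_of_pos hb0] at this
    exact this
  have hc0 := abs_nonneg c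
  have k5 : ((D : ℤ) - 1) * |c| ≤ g * (R * D) * (2 * R) := by
    calc ((D : ℤ) - 1) * |c| ≤ ((r.1 : ℤ) - p.1) * |c| := mul_le_mul_of_nonneg_right hw hc0
      _ = |(r.2 : ℤ) - p.2| * b := k4
      _ ≤ (g * (R * D)) * (2 * R) := by
          apply mul_le_mul hyb hb2.le hb0.le (by positivity)
  have hD2 : (D : ℤ) ≤ 2 * ((D : ℤ) - 1) := by omega
  have k6 : ((D : ℤ) - 1) * |c| ≤ ((D : ℤ) - 1) * (4 * g * R ^ 2) := by
    calc ((D : ℤ) - 1) * |c| ≤ g * (R * D) * (2 * R) := k5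
      _ = (2 * g * R ^ 2) * D := by ring
      _ ≤ (2 * g * R ^ 2) * (2 * ((D : ℤ) - 1)) := by
          apply mul_le_mul_of_nonneg_left hD2 (by positivity)
      _ = _ := by ring
  exact le_of_mul_le_mul_left k6 (by omega)

/-- The number of incidences between grid points and rich lines. -/
theorem rich_sum {g D R : ℕ} (hg : 0 < g) (hD : 3 ≤ D) (hR : 0 < R) :
    ∑ S ∈ (Lam (grid g (R * D)) \ Ver (grid g (R * D))).filter (fun S => D ≤ S.card), S.card ≤
      18 * g * R ^ 3 * (grid g (R * D)).card := by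
  classical
  set L := grid g (R * D) with hL
  set Q := (Lam L \ Ver L).filter (fun S => D ≤ S.card) with hQ
  have hex : ∀ S : Finset (ℕ × ℕ), ∃ d : ℕ × ℤ, S ∈ Q → (d ∈ Dir g R ∧ 0 < d.1 ∧ ∃ a ∈ S, ∃ a' ∈ S,
      a ≠ a' ∧ (a'.1 : ℤ) - a.1 = d.1 ∧ (a'.2 : ℤ) - a.2 = d.2) := by
    intro S
    by_cases hS : S ∈ Q
    · have hS' := hS
      rw [hQ, mem_filter, mem_sdiff] at hS'
      obtain ⟨a, ha, a', ha', hlt, hb, hc⟩ := exists_dir hD hR hS'.1.1 hS'.1.2 hS'.2
      refine ⟨(a'.1 - a.1, (a'.2 : ℤ) - a.2), fun _ => ⟨?_, ?_, a, ha, a', ha', ?_, ?_, rfl⟩⟩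
      · unfold Dir
        rw [mem_product, mem_range, Finset.mem_Icc]
        rw [abs_le] at hc
        exact ⟨hb, hc.1, hc.2⟩
      · simp only; omega
      · rintro rfl; omega
      · simp only; omega
    · exact ⟨(0, 0), fun h => absurd h hS⟩
  choose d hd using hex
  have hcard : ∑ S ∈ Q, S.card = (Q.sigma (fun S => S)).card := by rw [card_sigma]
  rw [hcard]
  have hinj : (Q.sigma (fun S => S)).card ≤ (Dir g R ×ˢ L).card := by
    apply card_le_card_of_injOn (fun x : (_ : Finset (ℕ × ℕ)) × (ℕ × ℕ) => (d x.1, x.2))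
    · intro x hx
      rw [mem_coe, mem_sigma] at hx
      rw [mem_coe, mem_product]
      refine ⟨(hd x.1 hx.1).1, ?_⟩
      have := hx.1
      rw [hQ, mem_filter, mem_sdiff] at this
      exact (mem_Lam.1 this.1.1).1 hx.2
    · rintro ⟨S, e⟩ hx ⟨S', e'⟩ hx' h
      rw [mem_coe, mem_sigma] at hx hx'
      simp only [Prod.mk.injEq] at h hx hx'
      obtain ⟨h1, rfl⟩ := h
      have hchar : ∀ S ∈ Q, e ∈ S → ∀ c ∈ L, (c ∈ S ↔
          ((c.1 : ℤ) - e.1) * (d S).2 = ((c.2 : ℤ) - e.2) * (d S).1) := by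
        intro S hS he c hc
        obtain ⟨_, _, a, ha, a', ha', hne, q1, q2⟩ := hd S hS
        rw [hQ, mem_filter, mem_sdiff] at hS
        have hS1 := mem_Lam.1 hS.1.1
        have k1 := (hS1.2 a ha a' ha' hne e (hS1.1 he)).1 he
        have k2 := hS1.2 a ha a' ha' hne c hc
        rw [q1, q2] at k1 k2
        rw [k2]
        constructor
        · intro k3; linarith
        · intro k3; linarith
      have hSS : S = S' := by
        have hSL : S ⊆ L := by
          have := hx.1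
          rw [hQ, mem_filter, mem_sdiff] at this
          exact (mem_Lam.1 this.1.1).1
        have hSL' : S' ⊆ L := by
          have := hx'.1
          rw [hQ, mem_filter, mem_sdiff] at this
          exact (mem_Lam.1 this.1.1).1
        ext c
        constructor
        · intro hc
          rw [hchar S' hx'.1 hx'.2 c (hSL hc), ← h1]
          exact (hchar S hx.1 hx.2 c (hSL hc)).1 hc
        · intro hc
          rw [hchar S hx.1 hx.2 c (hSL' hc), h1]
          exact (hchar S' hx'.1 hx'.2 c (hSL' hc)).1 hc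
      subst hSS
      rfl
  calc _ ≤ _ := hinj
    _ = (Dir g R).card * L.card := card_product _ _
    _ ≤ 18 * g * R ^ 3 * L.card := Nat.mul_le_mul_right _ (card_Dir hg hR)

end Pool.Agent.H116.EN
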