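import Pool.Agent.H116.EN.Plane

/-!
Choice of the parameters.
-/

set_option autoImplicit false
open Finset Real
open scoped Classical

namespace Pool.Agent.H116.EN

theorem log_small {x : ℝ} (hx : 10000 ≤ x) : 400 * log x ≤ x ∧ 1 ≤ log x := by
  have h2 : log 2 < 0.6931471808 := log_two_lt_d9
  constructor
  · have h1 : log (x / 10000) ≤ x / 10000 - 1 := log_le_sub_one_of_pos (by positivity)
    rw [log_div (by positivity) (by norm_num)] at h1
    have h3 : log 10000 ≤ 14 * log 2 := by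
      have : 14 * log 2 = log (2 ^ 14) := by rw [log_pow]; norm_num
      rw [this]
      exact log_le_log (by norm_num) (by norm_num)
    linarith
  · rw [le_log_iff_exp_le (by linarith)]
    linarith [exp_one_lt_d9]

theorem main : ∃ c : ℝ, 0 < c ∧ ∃ ε₀ : ℝ, 0 < ε₀ ∧ ∀ ε : ℝ, 0 < ε → ε < ε₀ →
    ∃ P : Finset (EuclideanSpace ℝ (Fin 2)), 2 ≤ P.card ∧
      ∃ w : AffineSubspace ℝ (EuclideanSpace ℝ (Fin 2)) → ℝ, (∀ l ∈ sp P, 0 < w l) ∧
        ∀ N ⊆ sp P, (∀ p ∈ P, ε * (∑ l ∈ sp P, w l) ≤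
            (∑ l ∈ (sp P).filter (fun l => p ∈ l), w l) → ∃ l ∈ N, p ∈ l) →
          c * ((1 / ε) * (log (1 / ε) / log (log (1 / ε)))) ≤ (N.card : ℝ) := by
  refine ⟨1 / 1200000, by norm_num, exp (-10000), exp_pos _, ?_⟩
  intro ε hε hε0
  set x := log (1 / ε) with hx
  have hx1 : 10000 ≤ x := by
    rw [hx, one_div, log_inv]
    have := log_lt_log hε hε0
    rw [log_exp] at this
    linarith
  obtain ⟨hxy, hy1⟩ := log_small hx1
  set y := log x with hy
  have hy0 : 0 < y := by linarith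
  have hx0 : 0 < x := by linarith
  have hex : exp x = 1 / ε := by rw [hx, exp_log (by positivity)]
  set t := x / (100 * y) with ht
  have ht4 : 4 ≤ t := by
    rw [ht, le_div_iff₀ (by positivity)]; linarith
  set κ := ⌊t⌋₊ with hκ
  have hκle : (κ : ℝ) ≤ t := Nat.floor_le (by linarith)
  have hκgt : t < κ + 1 := Nat.lt_floor_add_one t
  have hκ3 : (3 : ℝ) ≤ κ := by linarith
  have hκ1 : 1 ≤ κ := by
    have : (1 : ℝ) ≤ κ := by linarith
    exact_mod_cast this
  have hκ0 : (0 : ℝ) < κ := by linarith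
  have hκt : t / 2 ≤ κ := by linarith
  set R : ℕ := (2 * (16 * κ) ^ 2) ^ κ with hR
  have hRR : (R : ℝ) = (512 * (κ : ℝ) ^ 2) ^ κ := by
    rw [hR]; push_cast; congr 1; ring
  have hR0 : (0 : ℝ) < R := by rw [hRR]; positivity
  have hR1 : (1 : ℝ) ≤ R := by
    rw [hRR]; apply one_le_pow₀
    nlinarith
  have hlogκ : log κ ≤ y := by
    rw [hy]
    apply log_le_log hκ0
    refine hκle.trans ?_
    rw [ht, div_le_iff₀ (by positivity)]
    nlinarith
  have hlogR : log R ≤ 9 * x / 100 := by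
    rw [hRR, log_pow, log_mul (by norm_num) (by positivity), log_pow]
    have h512 : log 512 ≤ 7 := by
      have : log 512 = 9 * log 2 := by
        rw [show (512 : ℝ) = 2 ^ 9 by norm_num, log_pow]; norm_num
      rw [this]; linarith [log_two_lt_d9]
    push_cast
    calc (κ : ℝ) * (log 512 + 2 * log κ) ≤ κ * (9 * y) := by
          apply mul_le_mul_of_nonneg_left _ hκ0.le
          linarith
      _ ≤ t * (9 * y) := mul_le_mul_of_nonneg_right hκle (by positivity)
      _ = 9 * x / 100 := by rw [ht]; field_simp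
  have hR11 : (R : ℝ) ^ 11 ≤ 1 / ε := by
    rw [← hex, ← log_le_iff_le_exp (by positivity), log_pow]
    push_cast
    linarith
  set D := ⌊(κ : ℝ) / (3 * ε * R)⌋₊ with hD
  have hDle : (D : ℝ) ≤ κ / (3 * ε * R) := Nat.floor_le (by positivity)
  have hDgt : (κ : ℝ) / (3 * ε * R) < D + 1 := Nat.lt_floor_add_one _
  have hD10 : (R : ℝ) ^ 10 ≤ κ / (3 * ε * R) := by
    rw [le_div_iff₀ (by positivity)]
    have h1 : (R : ℝ) ^ 11 * ε ≤ 1 := by rwa [le_div_iff₀ hε] at hR11
    calc (R : ℝ) ^ 10 * (3 * ε * R) = 3 * (R ^ 11 * ε) := by ring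
      _ ≤ 3 * 1 := by linarith
      _ ≤ κ := by linarith
  have hDnat : R ^ 10 ≤ D := by
    rw [hD]
    apply Nat.le_floor
    rw [Nat.cast_pow]
    exact hD10
  have hεm : ε * (3 * ((R * D : ℕ) : ℝ)) ≤ κ := by
    rw [le_div_iff₀ (by positivity)] at hDle
    calc ε * (3 * ((R * D : ℕ) : ℝ)) = D * (3 * ε * R) := by rw [Nat.cast_mul]; ring
      _ ≤ κ := hDle
  obtain ⟨P, hP, w, hw, hN⟩ := plane hκ1 hε hDnat hεm
  refine ⟨P, hP, w, hw, ?_⟩
  intro N hNs hnet
  have h1 := hN N hNs hnet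
  have h2 : ((R * D : ℕ) : ℝ) ≤ 1000 * N.card := by
    have : R * D ≤ 1000 * N.card := h1.le
    exact_mod_cast this
  have h3 : (κ : ℝ) / (6 * ε) ≤ ((R * D : ℕ) : ℝ) := by
    have hD1 : (1 : ℝ) ≤ D := by
      have : (1 : ℝ) ≤ (R : ℝ) ^ 10 := one_le_pow₀ hR1
      exact this.trans (by exact_mod_cast hDnat)
    have h4 : (κ : ℝ) / (3 * ε * R) ≤ 2 * D := by linarith
    rw [div_le_iff₀ (by positivity)] at h4
    rw [div_le_iff₀ (by positivity), Nat.cast_mul]
    linarith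
  have h5 : x / (200 * y) ≤ κ := by
    calc x / (200 * y) = t / 2 := by rw [ht]; field_simp; norm_num
      _ ≤ κ := hκt
  have h6 : (x / y) / 1200 * (1 / ε) ≤ ((R * D : ℕ) : ℝ) := by
    refine le_trans ?_ h3
    calc (x / y) / 1200 * (1 / ε) = (x / (200 * y)) / (6 * ε) := by field_simp; norm_num
      _ ≤ κ / (6 * ε) := by gcongr
  linarith

end Pool.Agent.H116.EN
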