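import Pool.Agent.H116.EN.Grid
import Pool.Graph.R_seed8.W281.Net.Geom

/-!
The configuration in the plane.
-/

set_option autoImplicit false
open Finset Real
open scoped Classical

namespace Pool.Agent.H116.EN

open Pool.Agent.W281.Net (pt pt_inj mem_line)

/-- Membership in the line through two points, in coordinates. -/
theorem mem_pair {p q : EuclideanSpace ℝ (Fin 2)} (hpq : p ≠ q) (x : EuclideanSpace ℝ (Fin 2)) :
    x ∈ affineSpan ℝ ({p, q} : Set (EuclideanSpace ℝ (Fin 2))) ↔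
      (x 0 - p 0) * (q 1 - p 1) = (x 1 - p 1) * (q 0 - p 0) := by
  rw [mem_affineSpan_pair_iff_exists_lineMap_eq]
  constructor
  · rintro ⟨r, rfl⟩
    rw [AffineMap.lineMap_apply]
    simp only [vsub_eq_sub, vadd_eq_add, PiLp.add_apply, PiLp.smul_apply, PiLp.sub_apply,
      smul_eq_mul]
    ring
  · intro h
    by_cases h0 : q 0 - p 0 = 0
    · have h1 : q 1 - p 1 ≠ 0 := by
        intro h1
        apply hpq
        ext i
        fin_cases i
        · show p 0 = q 0; linarith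
        · show p 1 = q 1; linarith
      rw [h0, mul_zero] at h
      have hx0 : x 0 - p 0 = 0 := by
        rcases mul_eq_zero.1 h with h | h
        · exact h
        · exact absurd h h1
      refine ⟨(x 1 - p 1) / (q 1 - p 1), ?_⟩
      rw [AffineMap.lineMap_apply]
      ext i
      fin_cases i
      · show (x 1 - p 1) / (q 1 - p 1) * (q 0 - p 0) + p 0 = x 0
        rw [h0]; linarith
      · show (x 1 - p 1) / (q 1 - p 1) * (q 1 - p 1) + p 1 = x 1
        rw [div_mul_cancel₀ _ h1]; ring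
    · refine ⟨(x 0 - p 0) / (q 0 - p 0), ?_⟩
      rw [AffineMap.lineMap_apply]
      ext i
      fin_cases i
      · show (x 0 - p 0) / (q 0 - p 0) * (q 0 - p 0) + p 0 = x 0
        rw [div_mul_cancel₀ _ h0]; ring
      · show (x 0 - p 0) / (q 0 - p 0) * (q 1 - p 1) + p 1 = x 1
        rw [div_mul_eq_mul_div, h, mul_div_assoc, div_self h0]; ring

/-- A line through two distinct points is determined by any two of its points. -/
theorem mem_pair' {p q a a' : EuclideanSpace ℝ (Fin 2)} (hpq : p ≠ q) (haa : a ≠ a')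
    (ha : a ∈ affineSpan ℝ ({p, q} : Set (EuclideanSpace ℝ (Fin 2))))
    (ha' : a' ∈ affineSpan ℝ ({p, q} : Set (EuclideanSpace ℝ (Fin 2))))
    (x : EuclideanSpace ℝ (Fin 2)) :
    x ∈ affineSpan ℝ ({p, q} : Set (EuclideanSpace ℝ (Fin 2))) ↔
      (x 0 - a 0) * (a' 1 - a 1) = (x 1 - a 1) * (a' 0 - a 0) := by
  rw [mem_pair hpq] at ha ha' ⊢
  have hd : q 0 - p 0 ≠ 0 ∨ q 1 - p 1 ≠ 0 := by
    by_contra hcon
    push Not at hcon
    apply hpq
    ext i
    fin_cases i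
    · show p 0 = q 0; linarith [hcon.1]
    · show p 1 = q 1; linarith [hcon.2]
  have haa0 : a' 0 - a 0 ≠ 0 ∨ a' 1 - a 1 ≠ 0 := by
    by_contra hcon
    push Not at hcon
    apply haa
    ext i
    fin_cases i
    · show a 0 = a' 0; linarith [hcon.1]
    · show a 1 = a' 1; linarith [hcon.2]
  generalize q 0 - p 0 = u at *
  generalize q 1 - p 1 = v at *
  -- a' - a = r (u, v)
  have hr : ∃ r : ℝ, r ≠ 0 ∧ a' 0 - a 0 = r * u ∧ a' 1 - a 1 = r * v := by
    rcases hd with hu | hv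
    · refine ⟨(a' 0 - a 0) / u, ?_, ?_, ?_⟩
      · intro h
        rw [div_eq_zero_iff] at h
        have h0 : a' 0 - a 0 = 0 := h.resolve_right hu
        rcases haa0 with h1 | h1
        · exact h1 h0
        · apply h1
          have e : (a' 1 - a 1) * u = (a' 0 - a 0) * v := by linarith
          rw [h0, zero_mul] at e
          exact (mul_eq_zero.1 e).resolve_right hu
      · rw [div_mul_cancel₀ _ hu]
      · have e : (a' 1 - a 1) * u = (a' 0 - a 0) * v := by linarith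
        rw [div_mul_eq_mul_div, ← e, mul_div_assoc, div_self hu, mul_one]
    · refine ⟨(a' 1 - a 1) / v, ?_, ?_, ?_⟩
      · intro h
        rw [div_eq_zero_iff] at h
        have h0 : a' 1 - a 1 = 0 := h.resolve_right hv
        rcases haa0 with h1 | h1
        · apply h1
          have e : (a' 1 - a 1) * u = (a' 0 - a 0) * v := by linarith
          rw [h0, zero_mul] at e
          exact (mul_eq_zero.1 e.symm).resolve_right hv
        · exact h1 h0
      · have e : (a' 1 - a 1) * u = (a' 0 - a 0) * v := by linarith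
        rw [div_mul_eq_mul_div, e, mul_div_assoc, div_self hv, mul_one]
      · rw [div_mul_cancel₀ _ hv]
  obtain ⟨r, hr0, e1, e2⟩ := hr
  rw [e1, e2]
  constructor
  · intro h
    have : (x 0 - a 0) * v = (x 1 - a 1) * u := by linarith
    calc (x 0 - a 0) * (r * v) = r * ((x 0 - a 0) * v) := by ring
      _ = r * ((x 1 - a 1) * u) := by rw [this]
      _ = _ := by ring
  · intro h
    have h2 : r * ((x 0 - a 0) * v - (x 1 - a 1) * u) = 0 := by linarith
    have h3 := (mul_eq_zero.1 h2).resolve_left hr0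
    linarith

/-- The `j`-th line. -/
noncomputable def ln (g m j : ℕ) : AffineSubspace ℝ (EuclideanSpace ℝ (Fin 2)) :=
  affineSpan ℝ ({pt 0 (((j % (2 * (g * m)) : ℕ) : ℝ) - (g : ℝ) * m),
    pt 1 (((j % (2 * (g * m)) : ℕ) : ℝ) - (g : ℝ) * m + ((j / (2 * (g * m)) : ℕ) : ℝ))} :
    Set (EuclideanSpace ℝ (Fin 2)))

theorem mem_ln {g m j : ℕ} {x y : ℝ} : pt x y ∈ ln g m j ↔
    y = ((j % (2 * (g * m)) : ℕ) : ℝ) - (g : ℝ) * m + ((j / (2 * (g * m)) : ℕ) : ℝ) * x := by
  unfold ln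
  rw [mem_line]
  constructor <;> intro h <;> rw [h] <;> ring

theorem ln_inj (g m : ℕ) : Function.Injective (ln g m) := by
  intro j j' h
  have h0 : pt 0 (((j % (2 * (g * m)) : ℕ) : ℝ) - (g : ℝ) * m) ∈ ln g m j := by
    rw [mem_ln]; ring
  have h1 : pt 1 (((j % (2 * (g * m)) : ℕ) : ℝ) - (g : ℝ) * m + ((j / (2 * (g * m)) : ℕ) : ℝ)) ∈
      ln g m j := by
    rw [mem_ln]; ring
  rw [h, mem_ln] at h0 h1
  have e0 : ((j % (2 * (g * m)) : ℕ) : ℝ) = ((j' % (2 * (g * m)) : ℕ) : ℝ) := by linarith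
  have e1 : ((j / (2 * (g * m)) : ℕ) : ℝ) = ((j' / (2 * (g * m)) : ℕ) : ℝ) := by linarith
  have f0 : j % (2 * (g * m)) = j' % (2 * (g * m)) := by exact_mod_cast e0
  have f1 : j / (2 * (g * m)) = j' / (2 * (g * m)) := by exact_mod_cast e1
  rw [← Nat.mod_add_div j (2 * (g * m)), ← Nat.mod_add_div j' (2 * (g * m)), f0, f1]

/-- The point set. -/
noncomputable def pts (g m : ℕ) : Finset (EuclideanSpace ℝ (Fin 2)) :=
  (range m ×ˢ range (3 * (g * m) + g)).image
    (fun a : ℕ × ℕ => pt (a.1 : ℝ) ((a.2 : ℝ) - (g : ℝ) * m))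

theorem mem_pts_of {g m : ℕ} {x y : ℕ} (hx : x < m) (hy : y < 3 * (g * m) + g) :
    pt (x : ℝ) ((y : ℝ) - (g : ℝ) * m) ∈ pts g m := by
  unfold pts
  exact mem_image.2 ⟨(x, y), mem_product.2 ⟨mem_range.2 hx, mem_range.2 hy⟩, rfl⟩

theorem grid_mem_pts {g m : ℕ} {a : ℕ × ℕ} (ha : a ∈ grid g m) :
    pt (a.1 : ℝ) (a.2 : ℝ) ∈ pts g m := by
  rw [mem_grid] at ha
  have h := mem_pts_of (g := g) (m := m) (x := a.1) (y := a.2 + g * m) ha.1 (by omega)
  have e : (((a.2 + g * m : ℕ) : ℝ) - (g : ℝ) * m) = (a.2 : ℝ) := by push_cast; ring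
  rwa [e] at h

theorem mem_ln_iff {g m j : ℕ} {a : ℕ × ℕ} (hj : j < 2 * g ^ 2 * m) :
    pt (a.1 : ℝ) (a.2 : ℝ) ∈ ln g m j ↔ j ∈ fam g m a := by
  rw [mem_ln, mem_fam]
  constructor
  · intro h
    refine ⟨hj, ?_⟩
    have : (((j % (2 * (g * m)) + (j / (2 * (g * m))) * a.1 : ℕ)) : ℝ) =
        ((a.2 + g * m : ℕ) : ℝ) := by
      rw [Nat.cast_add, Nat.cast_mul, Nat.cast_add, Nat.cast_mul g m]; linarith
    exact_mod_cast this
  · rintro ⟨_, h⟩
    have : (((j % (2 * (g * m)) + (j / (2 * (g * m))) * a.1 : ℕ)) : ℝ) =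
        ((a.2 + g * m : ℕ) : ℝ) := by
      rw [h]
    rw [Nat.cast_add, Nat.cast_mul, Nat.cast_add, Nat.cast_mul g m] at this
    linarith

/-- The lines spanned by a configuration. -/
noncomputable def sp (P : Finset (EuclideanSpace ℝ (Fin 2))) :
    Finset (AffineSubspace ℝ (EuclideanSpace ℝ (Fin 2))) :=
  P.offDiag.image
    (fun x : EuclideanSpace ℝ (Fin 2) × EuclideanSpace ℝ (Fin 2) =>
      affineSpan ℝ ({x.1, x.2} : Set (EuclideanSpace ℝ (Fin 2))))

theorem ln_spanned {g m j : ℕ} (hg : 0 < g) (hm : 2 ≤ m) (hj : j < 2 * g ^ 2 * m) :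
    ln g m j ∈ sp (pts g m) := by
  have hT : 0 < 2 * (g * m) := by positivity
  have ht : j % (2 * (g * m)) < 2 * (g * m) := Nat.mod_lt _ hT
  have hs : j / (2 * (g * m)) < g := by
    apply Nat.div_lt_of_lt_mul
    calc j < 2 * g ^ 2 * m := hj
      _ = 2 * (g * m) * g := by ring
  unfold sp
  rw [mem_image]
  refine ⟨(pt 0 (((j % (2 * (g * m)) : ℕ) : ℝ) - (g : ℝ) * m),
    pt 1 (((j % (2 * (g * m)) : ℕ) : ℝ) - (g : ℝ) * m + ((j / (2 * (g * m)) : ℕ) : ℝ))), ?_, rfl⟩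
  rw [mem_offDiag]
  refine ⟨?_, ?_, ?_⟩
  · have := mem_pts_of (g := g) (m := m) (x := 0) (y := j % (2 * (g * m))) (by omega) (by omega)
    simpa using this
  · have := mem_pts_of (g := g) (m := m) (x := 1) (y := j % (2 * (g * m)) + j / (2 * (g * m)))
      (by omega) (by omega)
    have e : (((j % (2 * (g * m)) + j / (2 * (g * m)) : ℕ) : ℝ) - (g : ℝ) * m) =
        ((j % (2 * (g * m)) : ℕ) : ℝ) - (g : ℝ) * m + ((j / (2 * (g * m)) : ℕ) : ℝ) := by
      rw [Nat.cast_add]; ring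
    rw [e] at this
    simpa using this
  · intro h
    have := (pt_inj h).1
    norm_num at this

theorem two_le_card_pts {g m : ℕ} (hg : 0 < g) (hm : 2 ≤ m) : 2 ≤ (pts g m).card := by
  have h0 := mem_pts_of (g := g) (m := m) (x := 0) (y := 0) (by omega) (by omega)
  have h1 := mem_pts_of (g := g) (m := m) (x := 1) (y := 0) (by omega) (by omega)
  have : 1 < (pts g m).card := by
    rw [one_lt_card]
    refine ⟨_, h0, _, h1, ?_⟩
    intro h
    have := (pt_inj h).1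
    norm_num at this
  omega

/-- The trace of a line on the grid. -/
noncomputable def tr (L : Finset (ℕ × ℕ)) (l : AffineSubspace ℝ (EuclideanSpace ℝ (Fin 2))) :
    Finset (ℕ × ℕ) := L.filter (fun a => pt (a.1 : ℝ) (a.2 : ℝ) ∈ l)

theorem mem_tr {L : Finset (ℕ × ℕ)} {l : AffineSubspace ℝ (EuclideanSpace ℝ (Fin 2))}
    {a : ℕ × ℕ} : a ∈ tr L l ↔ a ∈ L ∧ pt (a.1 : ℝ) (a.2 : ℝ) ∈ l := by
  unfold tr; rw [mem_filter]

theorem tr_mem {L : Finset (ℕ × ℕ)} {P : Finset (EuclideanSpace ℝ (Fin 2))}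
    {l : AffineSubspace ℝ (EuclideanSpace ℝ (Fin 2))} (hl : l ∈ sp P) : tr L l ∈ Lam L := by
  rw [mem_Lam]
  refine ⟨filter_subset _ _, ?_⟩
  unfold sp at hl
  rw [mem_image] at hl
  obtain ⟨⟨p, q⟩, hpq, rfl⟩ := hl
  rw [mem_offDiag] at hpq
  intro a ha a' ha' hne c hc
  rw [mem_tr] at ha ha' ⊢
  have hne' : pt (a.1 : ℝ) (a.2 : ℝ) ≠ pt (a'.1 : ℝ) (a'.2 : ℝ) := by
    intro h
    obtain ⟨h1, h2⟩ := pt_inj h
    apply hne
    ext
    · exact_mod_cast h1
    · exact_mod_cast h2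
  have key := mem_pair' hpq.2.2 hne' ha.2 ha'.2 (pt (c.1 : ℝ) (c.2 : ℝ))
  have e0 : ∀ x y : ℝ, (pt x y) 0 = x := by intro x y; simp [pt]
  have e1 : ∀ x y : ℝ, (pt x y) 1 = y := by intro x y; simp [pt]
  rw [e0, e0, e0, e1, e1, e1] at key
  have cast : (((((c.1 : ℤ) - a.1) * ((a'.2 : ℤ) - a.2) : ℤ) : ℝ) =
      (((((c.2 : ℤ) - a.2) * ((a'.1 : ℤ) - a.1) : ℤ)) : ℝ)) ↔
      ((c.1 : ℝ) - a.1) * ((a'.2 : ℝ) - a.2) = ((c.2 : ℝ) - a.2) * ((a'.1 : ℝ) - a.1) := by
    simp only [Int.cast_mul, Int.cast_sub, Int.cast_natCast]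
  constructor
  · rintro ⟨_, h⟩
    exact Int.cast_injective (cast.2 (key.1 h))
  · intro h
    exact ⟨hc, key.2 (cast.1 (by rw [h]))⟩

/-- The lower bound for admissible parameters. -/
theorem plane {κ D : ℕ} (hκ : 1 ≤ κ) {ε : ℝ} (hε : 0 < ε)
    (hD : ((2 * (16 * κ) ^ 2) ^ κ) ^ 10 ≤ D)
    (hεm : ε * (3 * (((2 * (16 * κ) ^ 2) ^ κ * D : ℕ) : ℝ)) ≤ κ) :
    ∃ P : Finset (EuclideanSpace ℝ (Fin 2)), 2 ≤ P.card ∧
      ∃ w : AffineSubspace ℝ (EuclideanSpace ℝ (Fin 2)) → ℝ, (∀ l ∈ sp P, 0 < w l) ∧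
        ∀ N ⊆ sp P, (∀ p ∈ P, ε * (∑ l ∈ sp P, w l) ≤
            (∑ l ∈ (sp P).filter (fun l => p ∈ l), w l) → ∃ l ∈ N, p ∈ l) →
          (2 * (16 * κ) ^ 2) ^ κ * D < 1000 * N.card := by
  set g := 16 * κ with hg
  have hg16 : 16 ≤ g := by omega
  have hg0 : 0 < g := by omega
  set R := (2 * g ^ 2) ^ κ with hR
  have hgR : 2 * g ^ 2 ≤ R := by
    rw [hR]
    calc 2 * g ^ 2 = (2 * g ^ 2) ^ 1 := (pow_one _).symm
      _ ≤ (2 * g ^ 2) ^ κ := Nat.pow_le_pow_right (by positivity) hκ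
  have hR512 : 512 ≤ R := by
    calc 512 = 2 * 16 ^ 2 := by norm_num
      _ ≤ 2 * g ^ 2 := by gcongr
      _ ≤ R := hgR
  have hR0 : 0 < R := by omega
  set m := R * D with hm
  set T := 180 * g * R ^ 3 with hT
  have hRD : R * T ^ 2 ≤ D := by
    refine le_trans ?_ hD
    have h1 : g ^ 2 ≤ R := by omega
    have h2 : 180 ^ 2 ≤ R ^ 2 := by
      calc 180 ^ 2 ≤ 512 ^ 2 := by norm_num
        _ ≤ R ^ 2 := by gcongr
    calc R * T ^ 2 = 180 ^ 2 * g ^ 2 * R ^ 7 := by rw [hT]; ring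
      _ ≤ R ^ 2 * R * R ^ 7 := by gcongr
      _ = R ^ 10 := by ring
  have hD3 : 1000 ≤ D := by
    refine le_trans ?_ hD
    calc 1000 ≤ 512 ^ 10 := by norm_num
      _ ≤ R ^ 10 := by gcongr
  have hm1000 : 1000 ≤ m := by
    rw [hm]
    calc 1000 = 1 * 1000 := by norm_num
      _ ≤ R * D := Nat.mul_le_mul hR0 hD3
  have hm0 : 0 < m := by omega
  obtain ⟨X, hX, hXc, hXcov⟩ := core (κ := κ) (g := g) (m := m) (T := T) (D := D)
    (T0 := 18 * g * R ^ 3) (n := 2 * g ^ 2 * m) hκ hg rfl (grid g m) (fam g m)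
    (fun a _ => fam_subset g m a) (fun a ha => card_fam hg0 hm0 ha) (card_grid g m)
    (deg_fam g m) pair_fam (Lam (grid g m)) (Ver (grid g m)) (fun S hS => (mem_Lam.1 hS).1)
    (Ver_subset _) (fun S hS => col_fam hS) (fun S hS => card_trace hg0 hS) (card_Ver g m)
    (rich_sum hg0 (by omega) hR0) (by rw [hT]; ring_nf; omega)
    (by rw [hT]; calc 100 ≤ 180 * 1 * 1 ^ 3 := by norm_num
          _ ≤ 180 * g * R ^ 3 := by gcongr <;> omega)
    hRD (by rw [hm, mul_comm]) hm1000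
  refine ⟨pts g m, two_le_card_pts hg0 (by omega), ?_⟩
  set XL := X.image (ln g m) with hXL
  have hXLs : XL ⊆ sp (pts g m) := by
    intro l hl
    rw [hXL, mem_image] at hl
    obtain ⟨j, hj, rfl⟩ := hl
    exact ln_spanned hg0 (by omega) (mem_range.1 (hX hj))
  set M := (sp (pts g m)).card with hM
  set w : AffineSubspace ℝ (EuclideanSpace ℝ (Fin 2)) → ℝ :=
    fun l => if l ∈ XL then 1 else 1 / (M + 1) with hw
  have hw0 : ∀ l, 0 < w l := by
    intro l
    simp only [hw]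
    split_ifs
    · norm_num
    · positivity
  refine ⟨w, fun l _ => hw0 l, ?_⟩
  intro N hN hnet
  have hXLc : XL.card = X.card := card_image_of_injective _ (ln_inj g m)
  -- total weight
  have hW : ∑ l ∈ sp (pts g m), w l ≤ 3 * m := by
    have h1 : ∀ l ∈ sp (pts g m), w l ≤ (if l ∈ XL then 1 else 0) + 1 / (M + 1) := by
      intro l _
      simp only [hw]
      split_ifs
      · have : (0 : ℝ) ≤ 1 / (M + 1) := by positivity
        linarith
      · linarith
    calc ∑ l ∈ sp (pts g m), w l ≤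
          ∑ l ∈ sp (pts g m), ((if l ∈ XL then 1 else 0) + 1 / (M + 1) : ℝ) := sum_le_sum h1
      _ = (XL.card : ℝ) + M * (1 / (M + 1)) := by
          rw [sum_add_distrib, ← sum_filter, filter_mem_eq_inter, inter_eq_right.2 hXLs, sum_const,
            sum_const, nsmul_eq_mul, nsmul_eq_mul, mul_one]
      _ ≤ 2 * m + 1 := by
          have h2 : (XL.card : ℝ) ≤ 2 * m := by rw [hXLc]; exact_mod_cast hXc
          have h3 : (M : ℝ) * (1 / (M + 1)) ≤ 1 := by
            rw [mul_one_div, div_le_one (by positivity)]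
            linarith
          linarith
      _ ≤ 3 * m := by
          have : (1 : ℝ) ≤ m := by exact_mod_cast hm0
          linarith
  have hheavy : ∀ a ∈ grid g m, κ ≤ (X ∩ fam g m a).card → ∃ l ∈ N, pt (a.1 : ℝ) (a.2 : ℝ) ∈ l := by
    intro a ha hκa
    apply hnet _ (grid_mem_pts ha)
    have h1 : ((X ∩ fam g m a).card : ℝ) ≤
        ∑ l ∈ (sp (pts g m)).filter (fun l => pt (a.1 : ℝ) (a.2 : ℝ) ∈ l), w l := by
      have h2 : (X ∩ fam g m a).image (ln g m) ⊆
          (sp (pts g m)).filter (fun l => pt (a.1 : ℝ) (a.2 : ℝ) ∈ l) := by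
        intro l hl
        rw [mem_image] at hl
        obtain ⟨j, hj, rfl⟩ := hl
        rw [mem_inter] at hj
        have hjn := mem_range.1 (hX hj.1)
        rw [mem_filter]
        exact ⟨ln_spanned hg0 (by omega) hjn, (mem_ln_iff hjn).2 hj.2⟩
      calc ((X ∩ fam g m a).card : ℝ) = (((X ∩ fam g m a).image (ln g m)).card : ℝ) := by
            rw [card_image_of_injective _ (ln_inj g m)]
        _ = ∑ l ∈ (X ∩ fam g m a).image (ln g m), (1 : ℝ) := by
            rw [sum_const, nsmul_eq_mul, mul_one]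
        _ ≤ ∑ l ∈ (X ∩ fam g m a).image (ln g m), w l := by
            apply sum_le_sum
            intro l hl
            have : l ∈ XL := by
              rw [hXL]
              exact image_subset_image inter_subset_left hl
            simp only [hw]
            rw [if_pos this]
        _ ≤ _ := sum_le_sum_of_subset_of_nonneg h2 fun l _ _ => (hw0 l).le
    refine le_trans ?_ h1
    calc ε * (∑ l ∈ sp (pts g m), w l) ≤ ε * (3 * m) := mul_le_mul_of_nonneg_left hW hε.le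
      _ ≤ κ := hεm
      _ ≤ _ := by exact_mod_cast hκa
  have hfin := hXcov (N.image (tr (grid g m))) (by
      intro S hS
      rw [mem_image] at hS
      obtain ⟨l, hl, rfl⟩ := hS
      exact tr_mem (hN hl))
    (by
      intro a ha hκa
      obtain ⟨l, hl, hal⟩ := hheavy a ha hκa
      exact ⟨tr (grid g m) l, mem_image_of_mem _ hl, mem_tr.2 ⟨ha, hal⟩⟩)
  calc m < 1000 * (N.image (tr (grid g m))).card := hfin
    _ ≤ 1000 * N.card := Nat.mul_le_mul_left _ card_image_le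

end Pool.Agent.H116.EN
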