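import Pool.Graph.R_seed8.W281.Net.Entropy

/-!
The tilting martingale of a point: along the indices `i` of the lines of the family `l` of the point the
conditional probability of `i ∈ N` is changed to `1/2`, as long as it is between `q / 2` and `1 / 2` and
fewer than `κ` of the lines have been chosen.
-/

set_option autoImplicit false
open Finset Real

namespace Pool.Agent.H116.EN

open Pool.Agent.W281.Net

/-- number of the indices below `i` in `N ∩ l` -/
def cnt (l : Finset ℕ) (i : ℕ) (N : Finset ℕ) : ℕ := ((N ∩ range i) ∩ l).card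

theorem cnt_congr (l : Finset ℕ) (i : ℕ) {N N' : Finset ℕ} (h : N ∩ range i = N' ∩ range i) :
    cnt l i N = cnt l i N' := by unfold cnt; rw [h]

theorem cnt_zero (l N : Finset ℕ) : cnt l 0 N = 0 := by simp [cnt]

theorem cnt_succ_hit {l : Finset ℕ} {i : ℕ} {N : Finset ℕ} (h1 : i ∈ N) (h2 : i ∈ l) :
    cnt l (i + 1) N = cnt l i N + 1 := by
  unfold cnt
  have : (N ∩ range (i + 1)) ∩ l = insert i ((N ∩ range i) ∩ l) := by
    ext x
    simp only [mem_inter, mem_range, mem_insert]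
    constructor
    · rintro ⟨⟨a, b⟩, c⟩
      by_cases hx : x = i
      · left; exact hx
      · right; exact ⟨⟨a, by omega⟩, c⟩
    · rintro (h | ⟨⟨a, b⟩, c⟩)
      · subst h; exact ⟨⟨h1, by omega⟩, h2⟩
      · exact ⟨⟨a, by omega⟩, c⟩
  rw [this, card_insert_of_notMem]
  simp

theorem cnt_succ_not {l : Finset ℕ} {i : ℕ} {N : Finset ℕ} (h : ¬(i ∈ N ∧ i ∈ l)) :
    cnt l (i + 1) N = cnt l i N := by
  unfold cnt
  congr 1
  ext x
  simp only [mem_inter, mem_range]
  constructor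
  · rintro ⟨⟨a, b⟩, c⟩
    refine ⟨⟨a, ?_⟩, c⟩
    rcases Nat.lt_succ_iff_lt_or_eq.1 b with h' | h'
    · exact h'
    · subst h'; exact absurd ⟨a, c⟩ h
  · rintro ⟨⟨a, b⟩, c⟩
    exact ⟨⟨a, by omega⟩, c⟩

theorem cnt_le_succ (l : Finset ℕ) (i : ℕ) (N : Finset ℕ) : cnt l i N ≤ cnt l (i + 1) N := by
  by_cases h : i ∈ N ∧ i ∈ l
  · rw [cnt_succ_hit h.1 h.2]; omega
  · rw [cnt_succ_not h]

variable (n : ℕ) (μ : Finset ℕ → ℝ) (q : ℝ) (κ : ℕ) (l : Finset ℕ)

/-- the condition for an active step -/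
def ActC (i : ℕ) (N : Finset ℕ) : Prop :=
  i ∈ l ∧ q / 2 ≤ pr n μ i N ∧ pr n μ i N ≤ 1 / 2 ∧ cnt l i N < κ

open Classical in
/-- Indicator of an active step. -/
noncomputable def Ac (i : ℕ) (N : Finset ℕ) : ℝ := if ActC n μ q κ l i N then 1 else 0

/-- the tilting coefficient -/
noncomputable def th (i : ℕ) (N : Finset ℕ) : ℝ :=
  (1 / 2 - pr n μ i N) / (pr n μ i N * (1 - pr n μ i N))

/-- The tilting martingale. -/
noncomputable def Zt : ℕ → Finset ℕ → ℝ
  | 0, _ => 1
  | i + 1, N => Zt i N * (1 + Ac n μ q κ l i N * th n μ i N * (xi i N - pr n μ i N))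

theorem actC_congr (i : ℕ) {N N' : Finset ℕ} (h : N ∩ range i = N' ∩ range i) :
    ActC n μ q κ l i N ↔ ActC n μ q κ l i N' := by
  unfold ActC
  rw [meas_pr n μ i N N' h, cnt_congr l i h]

theorem meas_Ac (i : ℕ) : Meas i (Ac n μ q κ l i) := by
  intro N N' h
  unfold Ac
  by_cases h1 : ActC n μ q κ l i N
  · rw [if_pos h1, if_pos ((actC_congr n μ q κ l i h).1 h1)]
  · rw [if_neg h1, if_neg (fun h2 => h1 ((actC_congr n μ q κ l i h).2 h2))]

theorem meas_th (i : ℕ) : Meas i (th n μ i) := by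
  intro N N' h
  unfold th
  rw [meas_pr n μ i N N' h]

theorem meas_Zt (i : ℕ) : Meas i (Zt n μ q κ l i) := by
  induction i with
  | zero => intro N N' _; rfl
  | succ i ih =>
    intro N N' h
    have h1 := inter_step h
    simp only [Zt]
    rw [ih N N' h1, meas_pr n μ i N N' h1, meas_Ac n μ q κ l i N N' h1, meas_th n μ i N N' h1,
      meas_xi i N N' h]

variable {n μ q κ l}

theorem Zt_succ_not {i : ℕ} {N : Finset ℕ} (h : ¬ ActC n μ q κ l i N) :
    Zt n μ q κ l (i + 1) N = Zt n μ q κ l i N := by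
  simp only [Zt, Ac]
  rw [if_neg h]; ring

theorem Zt_succ_hit (hq : 0 < q) {i : ℕ} {N : Finset ℕ} (h : ActC n μ q κ l i N) (hi : i ∈ N) :
    Zt n μ q κ l (i + 1) N = Zt n μ q κ l i N * (1 / (2 * pr n μ i N)) := by
  simp only [Zt, Ac, th, xi]
  rw [if_pos h, if_pos hi]
  obtain ⟨_, h2, h3, _⟩ := h
  have h4 : 0 < pr n μ i N := by linarith
  have h5 : 0 < 1 - pr n μ i N := by linarith
  congr 1
  field_simp
  ring

theorem Zt_succ_miss (hq : 0 < q) {i : ℕ} {N : Finset ℕ} (h : ActC n μ q κ l i N) (hi : i ∉ N) :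
    Zt n μ q κ l (i + 1) N = Zt n μ q κ l i N * (1 / (2 * (1 - pr n μ i N))) := by
  simp only [Zt, Ac, th, xi]
  rw [if_pos h, if_neg hi]
  obtain ⟨_, h2, h3, _⟩ := h
  have h4 : 0 < pr n μ i N := by linarith
  have h5 : 0 < 1 - pr n μ i N := by linarith
  congr 1
  field_simp
  ring

theorem Zt_nonneg (hq : 0 < q) (i : ℕ) (N : Finset ℕ) : 0 ≤ Zt n μ q κ l i N := by
  induction i with
  | zero => simp [Zt]
  | succ i ih =>
    by_cases h : ActC n μ q κ l i N
    · have h' := h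
      obtain ⟨_, h2, h3, _⟩ := h'
      have h4 : 0 < pr n μ i N := by linarith
      have h5 : 0 < 1 - pr n μ i N := by linarith
      by_cases hi : i ∈ N
      · rw [Zt_succ_hit hq h hi]; positivity
      · rw [Zt_succ_miss hq h hi]; positivity
    · rw [Zt_succ_not h]; exact ih

theorem Zt_le_pow (hq : 0 < q) (hq1 : q ≤ 1) (i : ℕ) (N : Finset ℕ) :
    Zt n μ q κ l i N ≤ (1 / q) ^ (min (cnt l i N) κ) := by
  have hρ : 1 ≤ 1 / q := by rw [le_div_iff₀ hq]; linarith
  induction i with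
  | zero => simp only [Zt, cnt_zero, Nat.zero_min, pow_zero]; exact le_refl _
  | succ i ih =>
    have hZ := Zt_nonneg (n := n) (μ := μ) (κ := κ) (l := l) hq i N
    have hmono : (1 / q) ^ (min (cnt l i N) κ) ≤ (1 / q) ^ (min (cnt l (i + 1) N) κ) :=
      pow_le_pow_right₀ hρ (min_le_min_right _ (cnt_le_succ l i N))
    by_cases h : ActC n μ q κ l i N
    · have h' := h
      obtain ⟨h1, h2, h3, h6⟩ := h'
      have h4 : 0 < pr n μ i N := by linarith
      have h5 : 0 < 1 - pr n μ i N := by linarith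
      by_cases hi : i ∈ N
      · rw [Zt_succ_hit hq h hi, cnt_succ_hit hi h1]
        have e1 : min (cnt l i N) κ = cnt l i N := min_eq_left h6.le
        have e2 : min (cnt l i N + 1) κ = cnt l i N + 1 := min_eq_left h6
        rw [e1] at ih
        rw [e2, pow_succ]
        apply mul_le_mul ih _ (by positivity) (by positivity)
        apply one_div_le_one_div_of_le hq
        linarith
      · rw [Zt_succ_miss hq h hi]
        refine le_trans ?_ (ih.trans hmono)
        have : 1 / (2 * (1 - pr n μ i N)) ≤ 1 := by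
          rw [div_le_one (by linarith)]; linarith
        calc Zt n μ q κ l i N * (1 / (2 * (1 - pr n μ i N))) ≤ Zt n μ q κ l i N * 1 :=
              mul_le_mul_of_nonneg_left this hZ
          _ = _ := mul_one _
    · rw [Zt_succ_not h]; exact ih.trans hmono

theorem Zt_le (hq : 0 < q) (hq1 : q ≤ 1) (i : ℕ) (N : Finset ℕ) :
    Zt n μ q κ l i N ≤ (1 / q) ^ κ := by
  have hρ : 1 ≤ 1 / q := by rw [le_div_iff₀ hq]; linarith
  exact (Zt_le_pow hq hq1 i N).trans (pow_le_pow_right₀ hρ (min_le_right _ _))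

theorem E_Zt_succ (h0 : ∀ N, 0 ≤ μ N) (i : ℕ) {G : Finset ℕ → ℝ} (hG : Meas i G) :
    E n μ (fun N => Zt n μ q κ l (i + 1) N * G N) = E n μ (fun N => Zt n μ q κ l i N * G N) := by
  have hM : Meas i (fun N => Ac n μ q κ l i N * Zt n μ q κ l i N * G N * th n μ i N) :=
    (((meas_Ac n μ q κ l i).mul (meas_Zt n μ q κ l i)).mul hG).mul (meas_th n μ i)
  have h1 := star' (n := n) h0 i hM
  have h2 : ∀ N, Zt n μ q κ l (i + 1) N * G N = Zt n μ q κ l i N * G N +
      (xi i N * (Ac n μ q κ l i N * Zt n μ q κ l i N * G N * th n μ i N) -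
       pr n μ i N * (Ac n μ q κ l i N * Zt n μ q κ l i N * G N * th n μ i N)) := by
    intro N
    simp only [Zt]
    ring
  simp only [h2]
  rw [E_add, E_sub, h1]
  ring

theorem E_Zt_le (h0 : ∀ N, 0 ≤ μ N) {i k : ℕ} (h : i ≤ k) {G : Finset ℕ → ℝ} (hG : Meas i G) :
    E n μ (fun N => Zt n μ q κ l k N * G N) = E n μ (fun N => Zt n μ q κ l i N * G N) := by
  induction k, h using Nat.le_induction with
  | base => rfl
  | succ k hk ih => rw [E_Zt_succ h0 k (hG.mono hk), ih]

theorem E_Zt_one (h0 : ∀ N, 0 ≤ μ N) (h1 : E n μ (fun _ => 1) = 1) (k : ℕ) :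
    E n μ (Zt n μ q κ l k) = 1 := by
  have h2 := E_Zt_le (n := n) (q := q) (κ := κ) (l := l) h0 (Nat.zero_le k) (G := fun _ => 1)
    (Meas.const 1)
  simp only [mul_one] at h2
  have h3 : E n μ (Zt n μ q κ l 0) = 1 := by
    rw [← h1]; congr 1
  calc E n μ (Zt n μ q κ l k) = E n μ (fun N => Zt n μ q κ l k N) := rfl
    _ = 1 := by rw [h2]; exact h3

/-- Removing indices which are not in `N` from the family does not decrease the martingale. -/
theorem Zt_le_sdiff (hq : 0 < q) {e : Finset ℕ} {N : Finset ℕ} (he : e ∩ N = ∅) (i : ℕ) :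
    Zt n μ q κ l i N ≤ Zt n μ q κ (l \ e) i N := by
  have hcnt : ∀ i, cnt (l \ e) i N = cnt l i N := by
    intro i
    unfold cnt
    congr 1
    ext x
    simp only [mem_inter, mem_sdiff, mem_range]
    constructor
    · rintro ⟨a, b, _⟩; exact ⟨a, b⟩
    · rintro ⟨a, b⟩
      refine ⟨a, b, fun hx => ?_⟩
      have : x ∈ e ∩ N := mem_inter.2 ⟨hx, a.1⟩
      rw [he] at this
      exact absurd this (notMem_empty x)
  induction i with
  | zero => simp [Zt]
  | succ i ih =>
    have hZ := Zt_nonneg (n := n) (μ := μ) (κ := κ) (l := l) hq i N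
    by_cases hie : i ∈ e
    · have hiN : i ∉ N := by
        intro hx
        have : i ∈ e ∩ N := mem_inter.2 ⟨hie, hx⟩
        rw [he] at this
        exact absurd this (notMem_empty i)
      have h2 : ¬ ActC n μ q κ (l \ e) i N := by
        rintro ⟨h, _⟩
        exact (mem_sdiff.1 h).2 hie
      rw [Zt_succ_not h2]
      refine le_trans ?_ ih
      by_cases h : ActC n μ q κ l i N
      · have h' := h
        obtain ⟨_, h2, h3, _⟩ := h'
        rw [Zt_succ_miss hq h hiN]
        have : 1 / (2 * (1 - pr n μ i N)) ≤ 1 := by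
          rw [div_le_one (by linarith)]; linarith
        calc Zt n μ q κ l i N * (1 / (2 * (1 - pr n μ i N))) ≤ Zt n μ q κ l i N * 1 :=
              mul_le_mul_of_nonneg_left this hZ
          _ = _ := mul_one _
      · rw [Zt_succ_not h]
    · have hiff : ActC n μ q κ (l \ e) i N ↔ ActC n μ q κ l i N := by
        unfold ActC
        rw [hcnt i, mem_sdiff]
        tauto
      by_cases h : ActC n μ q κ l i N
      · have h' := h
        obtain ⟨_, h2, h3, _⟩ := h'
        by_cases hi : i ∈ N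
        · rw [Zt_succ_hit hq h hi, Zt_succ_hit hq (hiff.2 h) hi]
          apply mul_le_mul_of_nonneg_right ih
          have : 0 < pr n μ i N := by linarith
          positivity
        · rw [Zt_succ_miss hq h hi, Zt_succ_miss hq (hiff.2 h) hi]
          apply mul_le_mul_of_nonneg_right ih
          have : 0 < 1 - pr n μ i N := by linarith
          positivity
      · rw [Zt_succ_not h, Zt_succ_not (fun h' => h (hiff.1 h'))]
        exact ih

/-- The martingales of two families which are disjoint below `i` are uncorrelated. -/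
theorem E_cross (h0 : ∀ N, 0 ≤ μ N) (h1 : E n μ (fun _ => 1) = 1) {l' : Finset ℕ} {i : ℕ}
    (hd : ∀ j < i, ¬ (j ∈ l ∧ j ∈ l')) :
    E n μ (fun N => Zt n μ q κ l i N * Zt n μ q κ l' i N) = 1 := by
  induction i with
  | zero => simpa [Zt] using h1
  | succ i ih =>
    have ih := ih (fun j hj => hd j (by omega))
    by_cases hl : i ∈ l'
    · have hl2 : i ∉ l := fun h => hd i (by omega) ⟨h, hl⟩
      have e : ∀ N, Zt n μ q κ l (i + 1) N = Zt n μ q κ l i N := fun N =>
        Zt_succ_not (fun h => hl2 h.1)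
      simp only [e]
      have := E_Zt_succ (n := n) (q := q) (κ := κ) (l := l') h0 i (meas_Zt n μ q κ l i)
      simp only [mul_comm (Zt n μ q κ l i _)]
      rw [this]
      rw [← ih]
      congr 1
      funext N
      ring
    · have e : ∀ N, Zt n μ q κ l' (i + 1) N = Zt n μ q κ l' i N := fun N =>
        Zt_succ_not (fun h => hl h.1)
      simp only [e]
      rw [E_Zt_succ h0 i (meas_Zt n μ q κ l' i), ih]

/-- Second moment of the sum of the martingales of families which are pairwise disjoint below `i`. -/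
theorem second (hq : 0 < q) (hq1 : q ≤ 1) {ι : Type*} (s : Finset ι) (f : ι → Finset ℕ) (i : ℕ)
    (h0 : ∀ N, 0 ≤ μ N) (h1 : E n μ (fun _ => 1) = 1)
    (hd : ∀ a ∈ s, ∀ a' ∈ s, a ≠ a' → ∀ j < i, ¬ (j ∈ f a ∧ j ∈ f a')) :
    E n μ (fun N => (∑ a ∈ s, Zt n μ q κ (f a) i N - s.card) ^ 2) ≤ s.card * (1 / q) ^ κ := by
  classical
  have e1 : ∀ N, (∑ a ∈ s, Zt n μ q κ (f a) i N - s.card) ^ 2 =
      (∑ a ∈ s, ∑ b ∈ s, Zt n μ q κ (f a) i N * Zt n μ q κ (f b) i N) -
      (2 * s.card : ℝ) * ∑ a ∈ s, Zt n μ q κ (f a) i N + (s.card : ℝ) ^ 2 * 1 := by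
    intro N
    rw [← sum_mul_sum]; ring
  simp only [e1]
  rw [E_add, E_sub, E_const_mul, E_const_mul, E_sum, E_sum, h1]
  have e2 : ∑ a ∈ s, E n μ (Zt n μ q κ (f a) i) = s.card := by
    rw [sum_congr rfl (fun a _ => E_Zt_one h0 h1 i)]; simp
  have e3 : ∀ a ∈ s, E n μ (fun N => ∑ b ∈ s, Zt n μ q κ (f a) i N * Zt n μ q κ (f b) i N) ≤
      (s.card : ℝ) - 1 + (1 / q) ^ κ := by
    intro a ha
    rw [E_sum, ← add_sum_erase s _ ha]
    have k1 : ∑ b ∈ s.erase a, E n μ (fun N => Zt n μ q κ (f a) i N * Zt n μ q κ (f b) i N) =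
        (s.card : ℝ) - 1 := by
      rw [sum_congr rfl (g := fun _ => (1 : ℝ))]
      · rw [sum_const, card_erase_of_mem ha, nsmul_eq_mul, mul_one]
        have : 1 ≤ s.card := card_pos.2 ⟨a, ha⟩
        push_cast [Nat.cast_sub this]; ring
      · intro b hb
        rw [mem_erase] at hb
        exact E_cross h0 h1 (hd a ha b hb.2 (Ne.symm hb.1))
    have k2 : E n μ (fun N => Zt n μ q κ (f a) i N * Zt n μ q κ (f a) i N) ≤ (1 / q) ^ κ := by
      calc _ ≤ E n μ (fun N => (1 / q) ^ κ * Zt n μ q κ (f a) i N) := by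
            apply E_mono' h0
            intro N
            exact mul_le_mul_of_nonneg_right (Zt_le hq hq1 i N) (Zt_nonneg hq i N)
        _ = (1 / q) ^ κ * E n μ (Zt n μ q κ (f a) i) := E_const_mul _ _
        _ = _ := by rw [E_Zt_one h0 h1, mul_one]
    rw [k1]
    linarith
  have e4 := sum_le_sum e3
  rw [sum_const, nsmul_eq_mul] at e4
  rw [e2]
  have hs : (0 : ℝ) ≤ s.card := Nat.cast_nonneg _
  nlinarith

/-- First absolute moment. -/
theorem absmom (hq : 0 < q) (hq1 : q ≤ 1) {ι : Type*} (s : Finset ι) (f : ι → Finset ℕ) (i : ℕ)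
    (h0 : ∀ N, 0 ≤ μ N) (h1 : E n μ (fun _ => 1) = 1)
    (hd : ∀ a ∈ s, ∀ a' ∈ s, a ≠ a' → ∀ j < i, ¬ (j ∈ f a ∧ j ∈ f a'))
    {R M T : ℝ} (hR : (1 / q) ^ κ = R) (hT : 0 < T) (hs : (s.card : ℝ) ≤ M)
    (hM : R * T ^ 2 ≤ M) (hM0 : 0 < M) :
    E n μ (fun N => |∑ a ∈ s, Zt n μ q κ (f a) i N - s.card|) ≤ M / T := by
  have h2 := second (κ := κ) hq hq1 s f i h0 h1 hd
  rw [hR] at h2
  have hR0 : 0 ≤ R := by rw [← hR]; positivity
  have h3 : E n μ (fun N => |∑ a ∈ s, Zt n μ q κ (f a) i N - s.card|) ≤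
      E n μ (fun N => T / (2 * M) * (∑ a ∈ s, Zt n μ q κ (f a) i N - s.card) ^ 2 +
        M / (2 * T) * 1) := by
    apply E_mono' h0
    intro N
    set y := ∑ a ∈ s, Zt n μ q κ (f a) i N - s.card
    have h4 : |y| ^ 2 = y ^ 2 := sq_abs y
    rw [← h4]
    generalize |y| = z
    rw [← sub_nonneg]
    have : T / (2 * M) * z ^ 2 + M / (2 * T) * 1 - z = (T * z - M) ^ 2 / (2 * M * T) := by
      field_simp; ring
    rw [this]
    positivity
  rw [E_add, E_const_mul, E_const_mul, h1] at h3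
  refine h3.trans ?_
  have h5 : (s.card : ℝ) * R ≤ M * R := mul_le_mul_of_nonneg_right hs hR0
  have h6 : T / (2 * M) * (M * R) + M / (2 * T) * 1 ≤ M / T := by
    have e : M / T - (T / (2 * M) * (M * R) + M / (2 * T) * 1) = (M - R * T ^ 2) / (2 * T) := by
      field_simp; ring
    have : 0 ≤ (M - R * T ^ 2) / (2 * T) := div_nonneg (by linarith) (by positivity)
    linarith
  have h7 : T / (2 * M) * E n μ (fun N => (∑ a ∈ s, Zt n μ q κ (f a) i N - s.card) ^ 2) ≤
      T / (2 * M) * (M * R) := mul_le_mul_of_nonneg_left (h2.trans h5) (by positivity)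
  linarith

end Pool.Agent.H116.EN
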